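import Pool.Agent.L5helper21.AF.Basic

/-!
Existence, uniqueness and the coefficients of the associated form.
-/

set_option autoImplicit false

open MvPolynomial

namespace Pool.Agent.L5helper21.AF

variable {n d : ℕ}

/-- the monomial `X ^ β` -/
noncomputable def mon (R : Type*) [CommSemiring R] {n : ℕ} (β : Fin n →₀ ℕ) :
    MvPolynomial (Fin n) R := monomial β 1

lemma mon_eq {R : Type*} [CommSemiring R] (β : Fin n →₀ ℕ) :
    mon R β = ∏ i, X i ^ β i := by
  rw [mon, monomial_eq, C_1, one_mul, Finsupp.prod_fintype _ _ (fun i => pow_zero _)]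

lemma mon_homog {R : Type*} [CommSemiring R] {N : ℕ} (β : Mon n N) :
    (mon R β.1).IsHomogeneous N := by
  rw [mon]
  exact isHomogeneous_monomial _ β.2

lemma eval_mon {R : Type*} [CommSemiring R] (β : Fin n →₀ ℕ) (z : Fin n → R) :
    eval z (mon R β) = ∏ i, z i ^ β i := by
  rw [mon_eq]; simp

open Classical in
lemma coeff_mon {R : Type*} [CommSemiring R] (α β : Fin n →₀ ℕ) :
    coeff α (mon R β) = if β = α then 1 else 0 := by
  rw [mon, coeff_monomial]

/-- a homogeneous polynomial is the sum of its terms -/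
lemma homog_eq_sum {R : Type*} [CommRing R] {N : ℕ} {p : MvPolynomial (Fin n) R}
    (hp : p.IsHomogeneous N) : p = ∑ β : Mon n N, C (coeff β.1 p) * mon R β.1 := by
  classical
  ext α
  rw [coeff_sum]
  simp only [coeff_C_mul, coeff_mon]
  by_cases hα : α.degree = N
  · rw [Finset.sum_eq_single (⟨α, hα⟩ : Mon n N)]
    · simp
    · intro b _ hb
      rw [if_neg, mul_zero]
      intro h
      exact hb (Subtype.ext h)
    · intro h; exact absurd (Finset.mem_univ _) h
  · rw [hp.coeff_eq_zero hα, Finset.sum_eq_zero]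
    intro b _
    rw [if_neg, mul_zero]
    rintro rfl
    exact hα b.2

/-- the multinomial coefficient of a monomial -/
noncomputable def mult {N : ℕ} (β : Mon n N) : ℕ := Nat.multinomial Finset.univ β.1

lemma mult_pos {N : ℕ} (β : Mon n N) : 0 < mult β := Nat.multinomial_pos _ _

lemma lin_pow {R : Type*} [CommRing R] (N : ℕ) (y : Fin n → R) :
    (∑ i, y i) ^ N = ∑ β : Mon n N, (mult β : R) * ∏ i, y i ^ β.1 i := by
  classical
  rw [Finset.sum_pow_eq_sum_piAntidiag]
  refine Finset.sum_bij' (fun k hk => (⟨Finsupp.equivFunOnFinite.symm k, ?_⟩ : Mon n N))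
    (fun β _ => (β.1 : Fin n → ℕ)) ?_ ?_ ?_ ?_ ?_
  · rw [Finset.mem_piAntidiag] at hk
    rw [Finsupp.degree_eq_sum]
    exact hk.1
  · intro k hk; exact Finset.mem_univ _
  · intro β _
    rw [Finset.mem_piAntidiag]
    refine ⟨?_, fun i _ => Finset.mem_univ i⟩
    have := β.2
    rwa [Finsupp.degree_eq_sum] at this
  · intro k hk; rfl
  · intro β _
    apply Subtype.ext
    ext i; rfl
  · intro k hk; rfl

lemma linform_pow (N : ℕ) (z : Fin n → ℂ) :
    (∑ i, C (z i) * X i : MvPolynomial (Fin n) ℂ) ^ N =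
      ∑ β : Mon n N, C ((mult β : ℂ) * ∏ i, z i ^ β.1 i) * mon ℂ β.1 := by
  rw [lin_pow]
  refine Finset.sum_congr rfl fun β _ => ?_
  rw [mon_eq, C_mul, map_prod, mul_assoc, ← Finset.prod_mul_distrib]
  congr 1
  refine Finset.prod_congr rfl fun i _ => ?_
  rw [mul_pow, C_pow]

variable {f : MvPolynomial (Fin n) ℂ}

/-- the form with given values of the monomials -/
lemma isAssoc_of (c : Mon n (n * (d - 2)) → ℂ)
    (hc : ∀ β : Mon n (n * (d - 2)), mon ℂ β.1 - C (c β) * hess f ∈ jac f) :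
    IsAssociatedForm n d f (∑ β : Mon n (n * (d - 2)), C ((mult β : ℂ) * c β) * mon ℂ β.1) := by
  refine ⟨IsHomogeneous.sum _ _ _ fun β _ => ?_, fun z => ?_⟩
  · have := (isHomogeneous_C (Fin n) ((mult β : ℂ) * c β)).mul (mon_homog (R := ℂ) β)
    rwa [zero_add] at this
  · rw [linform_pow, map_sum, map_sum, Finset.sum_mul, ← Finset.sum_sub_distrib]
    refine Ideal.sum_mem _ fun β _ => ?_
    have h1 : C ((mult β : ℂ) * ∏ i, z i ^ β.1 i) * mon ℂ β.1 -
        C (eval z (C ((mult β : ℂ) * c β) * mon ℂ β.1)) * hess f =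
        C ((mult β : ℂ) * ∏ i, z i ^ β.1 i) * (mon ℂ β.1 - C (c β) * hess f) := by
      rw [eval_mul, eval_C, eval_mon, mul_sub, ← mul_assoc, ← C_mul]
      congr 3
      ring_nf
    rw [h1]
    exact Ideal.mul_mem_left _ _ (hc β)

theorem assoc_unique (hd : 2 ≤ d) (hf : f.IsHomogeneous d) (hs : IsNondeg f)
    {F F' : MvPolynomial (Fin n) ℂ} (h : IsAssociatedForm n d f F)
    (h' : IsAssociatedForm n d f F') : F = F' := by
  apply MvPolynomial.funext
  intro z
  exact val_unique hd hf hs (h.2 z) (h'.2 z)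

/-- Nondegenerate forms have exactly one associated form. -/
theorem existsUnique_assoc (hd : 2 ≤ d) (hf : f.IsHomogeneous d) (hs : IsNondeg f) :
    ∃! F, IsAssociatedForm n d f F := by
  choose c hc using fun β : Mon n (n * (d - 2)) =>
    exists_val hd hf hs (h := mon ℂ β.1) (mon_homog β)
  exact ⟨_, isAssoc_of c hc, fun F' h' => assoc_unique hd hf hs h' (isAssoc_of c hc)⟩

/-- the coefficients of the associated form -/
theorem coeff_assoc (hd : 2 ≤ d) (hf : f.IsHomogeneous d) (hs : IsNondeg f)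
    {F : MvPolynomial (Fin n) ℂ} (h : IsAssociatedForm n d f F) (β : Mon n (n * (d - 2))) :
    ∃ c : ℂ, mon ℂ β.1 - C c * hess f ∈ jac f ∧ coeff β.1 F = (mult β : ℂ) * c := by
  classical
  choose c hc using fun β : Mon n (n * (d - 2)) =>
    exists_val hd hf hs (h := mon ℂ β.1) (mon_homog β)
  refine ⟨c β, hc β, ?_⟩
  rw [assoc_unique hd hf hs h (isAssoc_of c hc), coeff_sum]
  simp only [coeff_C_mul, coeff_mon]
  rw [Finset.sum_eq_single β]
  · simp
  · intro b _ hb
    rw [if_neg, mul_zero]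
    intro h
    exact hb (Subtype.ext h)
  · intro h; exact absurd (Finset.mem_univ _) h

end Pool.Agent.L5helper21.AF
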