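import Pool.Agent.TH144.MB.Reg
import Pool.Agent.H503R3.QCI.Hilb

/-!
Forms without common zeros form a regular sequence, and the top degree part of the quotient is
one-dimensional (copied from `Pool.Agent.TH130.CI.Cz` and `Pool.Agent.TH130.CI.Soc`, to keep the
imports small).
-/

set_option autoImplicit false

open MvPolynomial

namespace Pool.Agent.L5helper21.AF

open H503R3.QCI (HS HS_ci cip gr isSocleDegree_ci homog_span)

section
open Pool.Agent.TH144.MB

variable {n : ℕ} {K : Type} [Field K]

lemma ext_eq (fs : List (MvPolynomial (Fin n) K)) (I : Ideal (MvPolynomial (Fin n) K)) :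
    Pool.Agent.TH144.MB.ext I fs = I ⊔ Ideal.span {g | g ∈ fs} := by
  induction fs generalizing I with
  | nil => simp [Pool.Agent.TH144.MB.ext]
  | cons f fs ih =>
    rw [Pool.Agent.TH144.MB.ext, ih, sup_assoc, ← Ideal.span_union]
    congr 2
    ext g
    simp

/-- Forms without nontrivial common zeros, as many as there are variables, over an algebraically
closed field, form a regular sequence. -/
theorem reg_of_common_zero [IsAlgClosed K] (f : Fin n → MvPolynomial (Fin n) K) (d : Fin n → ℕ)
    (hd : ∀ i, 0 < d i) (hf : ∀ i, (f i).IsHomogeneous (d i))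
    (hz : ∀ x : Fin n → K, (∀ i, eval x (f i) = 0) → x = 0) : H503R3.QCI.Reg f := by
  have h := (square (List.ofFn fun i => (f i, d i)) [] (by
    intro x hx
    rw [List.mem_ofFn] at hx
    obtain ⟨i, rfl⟩ := hx
    exact ⟨hf i, hd i⟩) (by simp) (by
    intro v _ hv
    refine hz v fun i => hv (f i, d i) ?_
    rw [List.mem_ofFn]
    exact ⟨i, rfl⟩)).1
  have h1 : (List.ofFn fun i => (f i, d i)).map Prod.fst = List.ofFn f := by
    rw [List.map_ofFn]; rfl
  rw [List.map_nil, List.nil_append, h1] at h
  intro i
  have h2 : List.ofFn f = (List.ofFn f).take i.1 ++ (f i :: (List.ofFn f).drop (i.1 + 1)) := by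
    have h3 : (List.ofFn f).drop i.1 = f i :: (List.ofFn f).drop (i.1 + 1) := by
      rw [List.drop_eq_getElem_cons (by simp)]
      simp
    rw [← h3, List.take_append_drop]
  rw [h2, reg_append] at h
  have h4 := h.2.1
  rw [ext_eq, bot_sup_eq] at h4
  have h5 : {g | g ∈ (List.ofFn f).take i.1} = f '' {j | j < i} := by
    ext x
    simp only [Set.mem_ofPred_eq, Set.mem_image, List.mem_take_iff_getElem, List.getElem_ofFn,
      List.length_ofFn]
    constructor
    · rintro ⟨j, hj, rfl⟩
      exact ⟨⟨j, by omega⟩, Fin.lt_def.mpr (by simp; omega), rfl⟩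
    · rintro ⟨j, hj, rfl⟩
      exact ⟨j.1, by have := Fin.lt_def.mp hj; have := i.2; omega, rfl⟩
  rw [h5] at h4
  exact h4

end

variable {n : ℕ} {K : Type} [Field K]

/-- the top degree part of an Artinian complete intersection is one-dimensional -/
lemma top_one {f : Fin n → MvPolynomial (Fin n) K} {e : Fin n → ℕ}
    (hf : ∀ i, (f i).IsHomogeneous (e i)) (he : ∀ i, 1 ≤ e i) (hreg : H503R3.QCI.Reg f) :
    Module.finrank K (homogeneousSubmodule (Fin n) K (∑ i, (e i - 1))) =
      Module.finrank K (gr (Ideal.span (Set.range f)) (∑ i, (e i - 1))) + 1 := by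
  have hHS := HS_ci f e hf hreg
  have hmon1 : ∀ k : ℕ, (∑ j ∈ Finset.range (k + 1), (Polynomial.X : Polynomial ℤ) ^ j).Monic ∧
      (∑ j ∈ Finset.range (k + 1), (Polynomial.X : Polynomial ℤ) ^ j).natDegree = k := by
    intro k
    constructor
    · exact Polynomial.Monic.geom_sum' Polynomial.monic_X
        (by rw [Polynomial.degree_X]; exact one_pos) k.succ_ne_zero
    · induction k with
      | zero => simp
      | succ k ih =>
        rw [Finset.sum_range_succ, Polynomial.natDegree_add_eq_right_of_natDegree_lt,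
          Polynomial.natDegree_X_pow]
        rw [ih, Polynomial.natDegree_X_pow]
        exact Nat.lt_succ_self k
  have hmon : ∀ i, (∑ k ∈ Finset.range (e i), (Polynomial.X : Polynomial ℤ) ^ k).Monic := by
    intro i
    have := (hmon1 (e i - 1)).1
    rwa [Nat.sub_add_cancel (he i)] at this
  have hdeg : (cip e).natDegree = ∑ i, (e i - 1) := by
    rw [cip, Polynomial.natDegree_prod_of_monic _ _ (fun i _ => hmon i)]
    refine Finset.sum_congr rfl fun i _ => ?_
    have := (hmon1 (e i - 1)).2
    rwa [Nat.sub_add_cancel (he i)] at this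
  have hcm : (cip e).Monic := Polynomial.monic_prod_of_monic _ _ (fun i _ => hmon i)
  have h2 := congrArg (PowerSeries.coeff (∑ i, (e i - 1))) hHS
  have h3 := hcm.coeff_natDegree
  rw [hdeg] at h3
  rw [HS, PowerSeries.coeff_mk, Polynomial.coeff_coe, h3] at h2
  omega

end Pool.Agent.L5helper21.AF
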