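import Pool.Agent.L5helper21.AF.Wiebe

/-!
The Milnor algebra of a nondegenerate form in its top degree.
-/

set_option autoImplicit false

open MvPolynomial

namespace Pool.Agent.L5helper21.AF

open H503R3.QCI (HS HS_ci cip gr mem_gr isSocleDegree_ci homog_span Homog)

variable {n d : ℕ} {f : MvPolynomial (Fin n) ℂ}

lemma jac_pow (hs : IsNondeg f) (i : Fin n) :
    ∃ N : ℕ, (X i : MvPolynomial (Fin n) ℂ) ^ N ∈ jac f := by
  have h1 : (X i : MvPolynomial (Fin n) ℂ) ∈ (jac f).radical := by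
    rw [jac, ← vanishingIdeal_zeroLocus_eq_radical (K := ℂ), mem_vanishingIdeal_iff]
    intro x hx
    have h2 : x = 0 := hs x fun j => by
      have := (mem_zeroLocus_iff.1 hx) (pderiv j f) (Ideal.subset_span ⟨j, rfl⟩)
      exact (RingHom.congr_fun (coe_aeval_eq_eval x) _).symm.trans this
    rw [h2, aeval_X]
    rfl
  exact h1

lemma jac_pow_all (hs : IsNondeg f) :
    ∃ N : ℕ, ∀ i, (X i : MvPolynomial (Fin n) ℂ) ^ (N + 1) ∈ jac f := by
  choose N hN using jac_pow hs
  refine ⟨∑ i, N i, fun i => ?_⟩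
  have h1 : N i ≤ ∑ j, N j + 1 :=
    (Finset.single_le_sum (fun _ _ => Nat.zero_le _) (Finset.mem_univ i)).trans (Nat.le_succ _)
  rw [← Nat.sub_add_cancel h1, pow_add]
  exact Ideal.mul_mem_left _ _ (hN i)

/-- the Hessian matrix -/
noncomputable def hmat (f : MvPolynomial (Fin n) ℂ) :
    Matrix (Fin n) (Fin n) (MvPolynomial (Fin n) ℂ) :=
  Matrix.of fun i j => pderiv i (pderiv j f)

lemma pderiv_comm (i j : Fin n) (g : MvPolynomial (Fin n) ℂ) :
    pderiv i (pderiv j g) = pderiv j (pderiv i g) := by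
  ext m
  simp only [coeff_pderiv]
  by_cases hij : i = j
  · rw [hij]
  · rw [add_right_comm m (Finsupp.single i 1) (Finsupp.single j 1)]
    simp only [Finsupp.add_apply, Finsupp.single_apply, if_neg hij, if_neg (Ne.symm hij), add_zero]
    ring

lemma hmat_mulVec (hf : f.IsHomogeneous d) :
    (hmat f).mulVec X = fun i => ((d - 1 : ℕ) : MvPolynomial (Fin n) ℂ) * pderiv i f := by
  ext1 i
  have h := (hf.pderiv (i := i)).sum_X_mul_pderiv
  rw [nsmul_eq_mul] at h
  rw [← h, Matrix.mulVec, dotProduct]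
  refine Finset.sum_congr rfl fun j _ => ?_
  rw [hmat, Matrix.of_apply, pderiv_comm, mul_comm]

theorem hess_notMem (hd : 2 ≤ d) (hf : f.IsHomogeneous d) (hs : IsNondeg f) :
    hess f ∉ jac f := by
  obtain ⟨m, hm⟩ := jac_pow_all hs
  have hne : ((d - 1 : ℕ) : ℂ) ≠ 0 := by
    rw [Nat.cast_ne_zero]; omega
  have hb : ((C (((d - 1 : ℕ) : ℂ)⁻¹) : MvPolynomial (Fin n) ℂ) • hmat f : Matrix (Fin n) (Fin n)
      (MvPolynomial (Fin n) ℂ)).mulVec X = fun i => pderiv i f := by
    rw [Matrix.smul_mulVec, hmat_mulVec hf]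
    ext1 i
    rw [Pi.smul_apply, smul_eq_mul, ← mul_assoc]
    have : (((d - 1 : ℕ) : MvPolynomial (Fin n) ℂ)) = C ((d - 1 : ℕ) : ℂ) := by simp
    rw [this, ← C_mul, inv_mul_cancel₀ hne, C_1, one_mul]
  have h := det_notMem (fun i => pderiv i f) _ hb m hm
  rw [Matrix.det_smul] at h
  intro hh
  exact h (Ideal.mul_mem_left _ _ hh)

lemma det_homog {m : ℕ} (A : Matrix (Fin n) (Fin n) (MvPolynomial (Fin n) ℂ))
    (hA : ∀ i j, (A i j).IsHomogeneous m) : A.det.IsHomogeneous (n * m) := by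
  rw [Matrix.det_apply]
  refine IsHomogeneous.sum _ _ _ fun σ _ => ?_
  have h1 : (∏ i, A (σ i) i).IsHomogeneous (∑ _i : Fin n, m) :=
    IsHomogeneous.prod _ _ _ fun i _ => hA _ _
  rw [Finset.sum_const, Finset.card_univ, Fintype.card_fin, smul_eq_mul] at h1
  have h2 : (Equiv.Perm.sign σ • ∏ i, A (σ i) i : MvPolynomial (Fin n) ℂ) =
      C (((Equiv.Perm.sign σ : ℤˣ) : ℤ) : ℂ) * ∏ i, A (σ i) i := by
    rw [Units.smul_def, zsmul_eq_mul]
    simp
  rw [h2]
  have h3 := (isHomogeneous_C (Fin n) (((Equiv.Perm.sign σ : ℤˣ) : ℤ) : ℂ)).mul h1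
  rwa [zero_add] at h3

lemma hess_homog (hf : f.IsHomogeneous d) : (hess f).IsHomogeneous (n * (d - 2)) := by
  rw [hess]
  refine det_homog _ fun i j => ?_
  have := (hf.pderiv (i := j)).pderiv (i := i)
  rwa [show d - 1 - 1 = d - 2 by omega] at this

/-- existence of the value of the associated form -/
theorem exists_val (hd : 2 ≤ d) (hf : f.IsHomogeneous d) (hs : IsNondeg f)
    {h : MvPolynomial (Fin n) ℂ} (hh : h.IsHomogeneous (n * (d - 2))) :
    ∃ c : ℂ, h - C c * hess f ∈ jac f := by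
  have hreg := reg_of_common_zero (fun i => pderiv i f) (fun _ => d - 1) (fun _ => by omega)
    (fun i => hf.pderiv) hs
  have h1 := top_one (fun i => hf.pderiv) (fun _ => by omega) hreg
  have hN : ∑ _i : Fin n, (d - 1 - 1) = n * (d - 2) := by
    rw [Finset.sum_const, Finset.card_univ, Fintype.card_fin, smul_eq_mul]; congr 1
  rw [hN] at h1
  set N := n * (d - 2) with hNdef
  change Module.finrank ℂ (homogeneousSubmodule (Fin n) ℂ N) =
    Module.finrank ℂ (gr (jac f) N) + 1 at h1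
  have hvI := hess_notMem hd hf hs
  have h2 : gr (jac f) N ⊔ Submodule.span ℂ {hess f} = homogeneousSubmodule (Fin n) ℂ N := by
    apply Submodule.eq_of_le_of_finrank_le
    · apply sup_le inf_le_right
      rw [Submodule.span_singleton_le_iff_mem]
      exact hess_homog hf
    · have hdis : gr (jac f) N ⊓ Submodule.span ℂ {hess f} = ⊥ := by
        rw [eq_bot_iff]
        rintro x ⟨hx1, hx2⟩
        obtain ⟨c, rfl⟩ := Submodule.mem_span_singleton.mp hx2
        by_cases hc : c = 0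
        · rw [hc, zero_smul]; exact Submodule.zero_mem _
        · exfalso
          apply hvI
          have h3 : c • hess f ∈ jac f := (mem_gr.mp hx1).1
          have h4 : hess f = C c⁻¹ * (c • hess f) := by
            rw [← smul_eq_C_mul, smul_smul, inv_mul_cancel₀ hc, one_smul]
          rw [h4]
          exact Ideal.mul_mem_left _ _ h3
      have h3 := Submodule.finrank_sup_add_finrank_inf_eq (gr (jac f) N)
        (Submodule.span ℂ {hess f})
      rw [hdis, finrank_bot, add_zero] at h3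
      have hv0 : hess f ≠ 0 := by
        intro h0
        rw [h0] at hvI
        exact hvI (Ideal.zero_mem _)
      rw [finrank_span_singleton hv0] at h3
      rw [h1, h3]
  have h3 : h ∈ gr (jac f) N ⊔ Submodule.span ℂ {hess f} := by rw [h2]; exact hh
  obtain ⟨a, ha, b, hb, hab⟩ := Submodule.mem_sup.mp h3
  obtain ⟨c, rfl⟩ := Submodule.mem_span_singleton.mp hb
  refine ⟨c, ?_⟩
  rw [← hab, smul_eq_C_mul, add_sub_cancel_right]
  exact (mem_gr.mp ha).1

theorem val_unique (hd : 2 ≤ d) (hf : f.IsHomogeneous d) (hs : IsNondeg f)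
    {h : MvPolynomial (Fin n) ℂ} {c c' : ℂ} (h1 : h - C c * hess f ∈ jac f)
    (h2 : h - C c' * hess f ∈ jac f) : c = c' := by
  by_contra hne
  apply hess_notMem hd hf hs
  have h3 := Ideal.sub_mem _ h2 h1
  have h4 : h - C c' * hess f - (h - C c * hess f) = C (c - c') * hess f := by
    rw [C_sub]; ring
  rw [h4] at h3
  have h5 := Ideal.mul_mem_left _ (C (c - c')⁻¹) h3
  rwa [← mul_assoc, ← C_mul, inv_mul_cancel₀ (sub_ne_zero.mpr hne), C_1, one_mul] at h5

end Pool.Agent.L5helper21.AF
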