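import Mathlib

/-!
# Associated forms: definitions

Forms of degree `d` in `n` variables over the complex numbers are homogeneous elements of
`MvPolynomial (Fin n) ℂ`; the coordinates on the space of these forms are their coefficients.
-/

set_option autoImplicit false

open MvPolynomial

namespace Pool.Agent.L5helper21.AF

/-- the exponents of the monomials of degree `d` in `n` variables -/
abbrev Mon (n d : ℕ) : Type := {α : Fin n →₀ ℕ // α.degree = d}

/-- the coefficient vector of a form of degree `d` -/
def cf {n : ℕ} (d : ℕ) (f : MvPolynomial (Fin n) ℂ) : Mon n d → ℂ := fun α => coeff α.1 f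

/-- the partial derivatives of `f` have no common zero except the origin -/
def IsNondeg {n : ℕ} (f : MvPolynomial (Fin n) ℂ) : Prop :=
  ∀ x : Fin n → ℂ, (∀ i, eval x (pderiv i f) = 0) → x = 0

/-- `Δ` is the discriminant of the forms of degree `d` in `n` variables: an irreducible polynomial
in the coefficients whose zeros are the forms that are not nondegenerate. -/
def IsDiscriminant (n d : ℕ) (Δ : MvPolynomial (Mon n d) ℂ) : Prop :=
  Irreducible Δ ∧ ∀ f : MvPolynomial (Fin n) ℂ, f.IsHomogeneous d →
    (eval (cf d f) Δ = 0 ↔ ¬ IsNondeg f)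

/-- the Hessian determinant of `f` -/
noncomputable def hess {n : ℕ} (f : MvPolynomial (Fin n) ℂ) : MvPolynomial (Fin n) ℂ :=
  Matrix.det (Matrix.of fun i j => pderiv i (pderiv j f))

/-- the ideal generated by the partial derivatives of `f` -/
noncomputable def jac {n : ℕ} (f : MvPolynomial (Fin n) ℂ) : Ideal (MvPolynomial (Fin n) ℂ) :=
  Ideal.span (Set.range fun i => pderiv i f)

/-- `F` is the associated form of the form `f` of degree `d` in `n` variables: a form of degree
`n (d - 2)` such that for all `z` the class of `(z₁ X₁ + … + zₙ Xₙ) ^ (n (d - 2))` modulo the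
partial derivatives of `f` is `F (z)` times the class of the Hessian of `f`. -/
def IsAssociatedForm (n d : ℕ) (f F : MvPolynomial (Fin n) ℂ) : Prop :=
  F.IsHomogeneous (n * (d - 2)) ∧
    ∀ z : Fin n → ℂ, (∑ i, C (z i) * X i) ^ (n * (d - 2)) - C (eval z F) * hess f ∈ jac f

/-- `Δ ^ p Φ` extends to a morphism from the space of all forms of degree `d` to the space of the
forms of degree `n (d - 2)`, where `Φ` maps a nondegenerate form to its associated form: there are
polynomials `Ψ β` in the coefficients of the forms of degree `d`, for all monomials of degree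
`n (d - 2)`, whose values at the nondegenerate forms `f` are the coefficients of
`Δ (f) ^ p Φ (f)`. -/
def Extends (n d : ℕ) (Δ : MvPolynomial (Mon n d) ℂ) (p : ℕ) : Prop :=
  ∃ Ψ : Mon n (n * (d - 2)) → MvPolynomial (Mon n d) ℂ,
    ∀ f : MvPolynomial (Fin n) ℂ, f.IsHomogeneous d → IsNondeg f →
      ∀ F : MvPolynomial (Fin n) ℂ, IsAssociatedForm n d f F →
        ∀ β : Mon n (n * (d - 2)),
          eval (cf d f) (Ψ β) = eval (cf d f) Δ ^ p * coeff β.1 F

instance (n d : ℕ) : Finite (Mon n d) := by
  have h : ∀ α : Mon n d, ∀ i, α.1 i < d + 1 := fun α i => by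
    have h1 := Finsupp.le_degree i α.1
    have h2 := α.2
    omega
  refine Finite.of_injective (fun (α : Mon n d) (i : Fin n) => (⟨α.1 i, h α i⟩ : Fin (d + 1))) ?_
  intro α β hab
  apply Subtype.ext
  ext i
  have := congrFun hab i
  simpa using this

noncomputable instance (n d : ℕ) : Fintype (Mon n d) := Fintype.ofFinite _

end Pool.Agent.L5helper21.AF
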