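import Pool.Agent.L5helper21.AF.Assoc

/-!
Denominators of the coefficients of the associated form, by Cramer's rule.
-/

set_option autoImplicit false

open MvPolynomial

namespace Pool.Agent.L5helper21.AF

open H503R3.QCI (comp_mul)

variable {n d : ℕ}

/-- the form with indeterminate coefficients -/
noncomputable def gen (n d : ℕ) : MvPolynomial (Fin n) (MvPolynomial (Mon n d) ℂ) :=
  ∑ α : Mon n d, C (X α) * mon _ α.1

/-- the Hessian over any ring -/
noncomputable def hessG {R : Type*} [CommRing R] (g : MvPolynomial (Fin n) R) :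
    MvPolynomial (Fin n) R :=
  Matrix.det (Matrix.of fun i j => pderiv i (pderiv j g))

lemma hessG_eq (f : MvPolynomial (Fin n) ℂ) : hessG f = hess f := rfl

lemma hessG_map {R S : Type*} [CommRing R] [CommRing S] (φ : R →+* S)
    (g : MvPolynomial (Fin n) R) : map φ (hessG g) = hessG (map φ g) := by
  rw [hessG, hessG, RingHom.map_det]
  congr 1
  ext1 i j
  rw [RingHom.mapMatrix_apply, Matrix.map_apply, Matrix.of_apply, Matrix.of_apply, pderiv_map,
    pderiv_map]

lemma map_mon {R S : Type*} [CommRing R] [CommRing S] (φ : R →+* S) (β : Fin n →₀ ℕ) :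
    map φ (mon R β) = mon S β := by
  rw [mon, mon, map_monomial, map_one]

lemma map_gen {R : Type*} [CommRing R] (φ : MvPolynomial (Mon n d) ℂ →+* R) :
    map φ (gen n d) = ∑ α : Mon n d, C (φ (X α)) * mon R α.1 := by
  rw [gen, map_sum]
  refine Finset.sum_congr rfl fun α _ => ?_
  rw [map_mul, map_C, map_mon]

lemma eval_gen {f : MvPolynomial (Fin n) ℂ} (hf : f.IsHomogeneous d) :
    map (eval (cf d f)) (gen n d) = f := by
  rw [map_gen]
  conv_rhs => rw [homog_eq_sum hf]
  refine Finset.sum_congr rfl fun α _ => ?_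
  rw [eval_X]; rfl

lemma gen_homog : (gen n d).IsHomogeneous d := by
  refine IsHomogeneous.sum _ _ _ fun α _ => ?_
  have := (isHomogeneous_C (Fin n) (X α : MvPolynomial (Mon n d) ℂ)).mul
    (mon_homog (R := MvPolynomial (Mon n d) ℂ) α)
  rwa [zero_add] at this

/-- a row of the matrix -/
noncomputable def row (n d : ℕ) (g : Fin n → MvPolynomial (Fin n) ℂ) (r : ℂ) :
    MvPolynomial (Fin n) (MvPolynomial (Mon n d) ℂ) :=
  ∑ i, map C (g i) * pderiv i (gen n d) + C (C r) * hessG (gen n d)

/-- the row, for a special form -/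
noncomputable def rowf (f : MvPolynomial (Fin n) ℂ) (g : Fin n → MvPolynomial (Fin n) ℂ) (r : ℂ) :
    MvPolynomial (Fin n) ℂ :=
  ∑ i, g i * pderiv i f + C r * hess f

lemma map_row {f : MvPolynomial (Fin n) ℂ} (hf : f.IsHomogeneous d)
    (g : Fin n → MvPolynomial (Fin n) ℂ) (r : ℂ) :
    map (eval (cf d f)) (row n d g r) = rowf f g r := by
  have h1 : ∀ p : MvPolynomial (Fin n) ℂ, map (eval (cf d f)) (map (C : ℂ →+* _) p) = p := by
    intro p
    rw [map_map]
    have : (eval (cf d f)).comp (C : ℂ →+* MvPolynomial (Mon n d) ℂ) = RingHom.id ℂ := by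
      ext; simp
    rw [this, map_id]
  rw [row, rowf, map_add, map_sum, map_mul, hessG_map, eval_gen hf, map_C, eval_C, hessG_eq]
  congr 1
  refine Finset.sum_congr rfl fun i _ => ?_
  rw [map_mul, h1, ← pderiv_map, eval_gen hf]

/-- the degree is large enough -/
lemma deg_ok (hn : 2 ≤ n) (hd : 3 ≤ d) : n * (d - 2) - (d - 1) + (d - 1) = n * (d - 2) := by
  have h1 : 2 * (d - 2) ≤ n * (d - 2) := Nat.mul_le_mul_right _ hn
  omega

lemma rowf_homog (hn : 2 ≤ n) (hd : 3 ≤ d) {f : MvPolynomial (Fin n) ℂ} (hf : f.IsHomogeneous d)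
    {g : Fin n → MvPolynomial (Fin n) ℂ} (hg : ∀ i, (g i).IsHomogeneous (n * (d - 2) - (d - 1)))
    (r : ℂ) : (rowf f g r).IsHomogeneous (n * (d - 2)) := by
  rw [rowf]
  refine IsHomogeneous.add (IsHomogeneous.sum _ _ _ fun i _ => ?_) ?_
  · have := (hg i).mul (hf.pderiv (i := i))
    rwa [deg_ok hn hd] at this
  · have := (isHomogeneous_C (Fin n) r).mul (hess_homog hf)
    rwa [zero_add] at this

/-- the matrix of a family of rows -/
noncomputable def umat (n d : ℕ) (g : Mon n (n * (d - 2)) → Fin n → MvPolynomial (Fin n) ℂ)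
    (r : Mon n (n * (d - 2)) → ℂ) :
    Matrix (Mon n (n * (d - 2))) (Mon n (n * (d - 2))) (MvPolynomial (Mon n d) ℂ) :=
  Matrix.of fun m m' => coeff m'.1 (row n d (g m) (r m))

open Classical in
lemma umat_map {f : MvPolynomial (Fin n) ℂ} (hf : f.IsHomogeneous d)
    (g : Mon n (n * (d - 2)) → Fin n → MvPolynomial (Fin n) ℂ)
    (r : Mon n (n * (d - 2)) → ℂ) :
    (umat n d g r).map (eval (cf d f)) = Matrix.of fun m m' => coeff m'.1 (rowf f (g m) (r m)) := by
  ext1 m m'
  rw [Matrix.map_apply, umat, Matrix.of_apply, Matrix.of_apply, ← coeff_map, map_row hf]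

/-- The denominators of the coefficients of the associated form. -/
def den (n d : ℕ) : Ideal (MvPolynomial (Mon n d) ℂ) where
  carrier := {D | ∀ β : Mon n (n * (d - 2)), ∃ P : MvPolynomial (Mon n d) ℂ,
    ∀ f : MvPolynomial (Fin n) ℂ, f.IsHomogeneous d → IsNondeg f → ∀ c : ℂ,
      mon ℂ β.1 - C c * hess f ∈ jac f → eval (cf d f) D * c = eval (cf d f) P}
  add_mem' := by
    intro D D' h h' β
    obtain ⟨P, hP⟩ := h β
    obtain ⟨P', hP'⟩ := h' β
    refine ⟨P + P', fun f hf hs c hc => ?_⟩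
    rw [eval_add, eval_add, add_mul, hP f hf hs c hc, hP' f hf hs c hc]
  zero_mem' := by
    intro β
    exact ⟨0, fun f hf hs c hc => by simp⟩
  smul_mem' := by
    intro D D' h β
    obtain ⟨P, hP⟩ := h β
    refine ⟨D * P, fun f hf hs c hc => ?_⟩
    rw [smul_eq_mul, eval_mul, eval_mul, mul_assoc, hP f hf hs c hc]

lemma mem_den {D : MvPolynomial (Mon n d) ℂ} : D ∈ den n d ↔
    ∀ β : Mon n (n * (d - 2)), ∃ P : MvPolynomial (Mon n d) ℂ,
    ∀ f : MvPolynomial (Fin n) ℂ, f.IsHomogeneous d → IsNondeg f → ∀ c : ℂ,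
      mon ℂ β.1 - C c * hess f ∈ jac f → eval (cf d f) D * c = eval (cf d f) P := Iff.rfl

open Classical in
/-- Cramer's rule. -/
theorem cramer (hn : 2 ≤ n) (hd : 3 ≤ d)
    {g : Mon n (n * (d - 2)) → Fin n → MvPolynomial (Fin n) ℂ}
    (hg : ∀ m i, (g m i).IsHomogeneous (n * (d - 2) - (d - 1)))
    (r : Mon n (n * (d - 2)) → ℂ) : (umat n d g r).det ∈ den n d := by
  rw [mem_den]
  intro β
  refine ⟨∑ m, (umat n d g r).adjugate β m * C (r m), fun f hf hs c hc => ?_⟩
  set V := (umat n d g r).map (eval (cf d f)) with hV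
  have hdet : eval (cf d f) (umat n d g r).det = V.det := by
    rw [RingHom.map_det]; rfl
  have hadj : ∀ m, eval (cf d f) ((umat n d g r).adjugate β m) = V.adjugate β m := by
    intro m
    have := RingHom.map_adjugate (eval (cf d f)) (umat n d g r)
    have h2 := congrFun (congrFun this β) m
    exact h2
  have hVrow : ∀ m, ∑ m', C (V m m') * mon ℂ m'.1 = rowf f (g m) (r m) := by
    intro m
    rw [homog_eq_sum (rowf_homog hn hd hf (hg m) (r m))]
    refine Finset.sum_congr rfl fun m' _ => ?_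
    rw [hV, umat_map hf]; rfl
  have key : C V.det * mon ℂ β.1 = ∑ m, C (V.adjugate β m) * rowf f (g m) (r m) := by
    have h1 : ∀ m, C (V.adjugate β m) * rowf f (g m) (r m) =
        ∑ m', C (V.adjugate β m * V m m') * mon ℂ m'.1 := by
      intro m
      rw [← hVrow m, Finset.mul_sum]
      refine Finset.sum_congr rfl fun m' _ => ?_
      rw [C_mul, mul_assoc]
    rw [Finset.sum_congr rfl fun m _ => h1 m, Finset.sum_comm]
    have h2 : ∀ m', ∑ m, C (V.adjugate β m * V m m') * mon ℂ m'.1 =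
        C ((V.adjugate * V) β m') * mon ℂ m'.1 := by
      intro m'
      rw [← Finset.sum_mul, ← map_sum, Matrix.mul_apply]
    rw [Finset.sum_congr rfl fun m' _ => h2 m', Matrix.adjugate_mul, Finset.sum_eq_single β]
    · simp
    · intro b _ hb
      rw [Matrix.smul_apply, Matrix.one_apply_ne (Ne.symm hb), smul_zero, C_0, zero_mul]
    · intro h; exact absurd (Finset.mem_univ _) h
  have h3 : C V.det * mon ℂ β.1 - C (∑ m, V.adjugate β m * r m) * hess f ∈ jac f := by
    rw [key, map_sum, Finset.sum_mul, ← Finset.sum_sub_distrib]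
    refine Ideal.sum_mem _ fun m _ => ?_
    have : C (V.adjugate β m) * rowf f (g m) (r m) - C (V.adjugate β m * r m) * hess f =
        C (V.adjugate β m) * ∑ i, g m i * pderiv i f := by
      rw [rowf, C_mul]; ring
    rw [this]
    exact Ideal.mul_mem_left _ _ (Ideal.sum_mem _ fun i _ =>
      Ideal.mul_mem_left _ _ (Ideal.subset_span ⟨i, rfl⟩))
  have h4 : C V.det * mon ℂ β.1 - C (V.det * c) * hess f ∈ jac f := by
    have := Ideal.mul_mem_left _ (C V.det) hc
    rwa [mul_sub, ← mul_assoc, ← C_mul] at this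
  have hN : (C V.det * mon ℂ β.1 : MvPolynomial (Fin n) ℂ).IsHomogeneous (n * (d - 2)) := by
    have := (isHomogeneous_C (Fin n) V.det).mul (mon_homog (R := ℂ) β)
    rwa [zero_add] at this
  rw [hdet, val_unique (by omega) hf hs h4 h3, map_sum]
  refine Finset.sum_congr rfl fun m _ => ?_
  rw [eval_mul, eval_C, hadj]

/-- homogeneous coefficients -/
theorem exists_row (hn : 2 ≤ n) (hd : 3 ≤ d) {f : MvPolynomial (Fin n) ℂ}
    (hf : f.IsHomogeneous d) {h : MvPolynomial (Fin n) ℂ} (hh : h.IsHomogeneous (n * (d - 2)))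
    {c : ℂ} (hc : h - C c * hess f ∈ jac f) :
    ∃ g : Fin n → MvPolynomial (Fin n) ℂ, (∀ i, (g i).IsHomogeneous (n * (d - 2) - (d - 1))) ∧
      rowf f g c = h := by
  obtain ⟨g, hg⟩ := (Ideal.mem_span_range_iff_exists_fun).1 hc
  refine ⟨fun i => homogeneousComponent (n * (d - 2) - (d - 1)) (g i),
    fun i => homogeneousComponent_isHomogeneous _ _, ?_⟩
  rw [rowf]
  have h1 : homogeneousComponent (n * (d - 2)) (∑ i, g i * pderiv i f) =
      h - C c * hess f := by
    rw [hg, homogeneousComponent_of_mem, if_pos rfl]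
    have := (isHomogeneous_C (Fin n) c).mul (hess_homog hf)
    rw [zero_add] at this
    exact hh.sub this
  rw [map_sum] at h1
  have h2 : ∀ i, homogeneousComponent (n * (d - 2)) (g i * pderiv i f) =
      homogeneousComponent (n * (d - 2) - (d - 1)) (g i) * pderiv i f := by
    intro i
    have h3 := comp_mul (v := g i) (k := n * (d - 2) - (d - 1)) (hf.pderiv (i := i))
    rw [add_comm, deg_ok hn hd] at h3
    rw [mul_comm (g i), h3, mul_comm (pderiv i f)]
  rw [Finset.sum_congr rfl fun i _ => h2 i] at h1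
  rw [h1]; ring

open Classical in
/-- a denominator which does not vanish at a given nondegenerate form -/
theorem exists_den (hn : 2 ≤ n) (hd : 3 ≤ d) {f : MvPolynomial (Fin n) ℂ}
    (hf : f.IsHomogeneous d) (hs : IsNondeg f) :
    ∃ (g : Mon n (n * (d - 2)) → Fin n → MvPolynomial (Fin n) ℂ) (r : Mon n (n * (d - 2)) → ℂ),
      (∀ m i, (g m i).IsHomogeneous (n * (d - 2) - (d - 1))) ∧
      eval (cf d f) (umat n d g r).det = 1 := by
  choose c hc using fun β : Mon n (n * (d - 2)) =>
    exists_val (by omega) hf hs (h := mon ℂ β.1) (mon_homog β)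
  choose g hg1 hg2 using fun β : Mon n (n * (d - 2)) =>
    exists_row hn hd hf (mon_homog (R := ℂ) β) (hc β)
  refine ⟨g, c, hg1, ?_⟩
  rw [RingHom.map_det]
  have : (eval (cf d f)).mapMatrix (umat n d g c) = 1 := by
    rw [RingHom.mapMatrix_apply, umat_map hf]
    ext1 m m'
    rw [Matrix.of_apply, hg2 m, coeff_mon, Matrix.one_apply]
    simp only [Subtype.ext_iff]
  rw [this, Matrix.det_one]

end Pool.Agent.L5helper21.AF
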