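import Pool.Agent.L5helper21.AF.Prime

/-!
The discriminant exists: the degenerate forms are the zeros of an irreducible polynomial.
-/

set_option autoImplicit false

open MvPolynomial

namespace Pool.Agent.L5helper21.AF

variable {n d : ℕ}

/-- elimination (copied from `Pool.Agent.R863.Curve`, to keep the imports small) -/
theorem elim {R : Type*} [CommRing R] [IsDomain R] [UniqueFactorizationMonoid R]
    {f g : Polynomial R} (hf : Irreducible f) (hfg : ¬ f ∣ g) :
    ∃ (a b : Polynomial R) (r : R), r ≠ 0 ∧ a * f + b * g = Polynomial.C r := by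
  classical
  by_cases h0 : f.natDegree = 0
  · obtain ⟨r, hr⟩ := Polynomial.natDegree_eq_zero.1 h0
    refine ⟨1, 0, r, ?_, ?_⟩
    · rintro rfl
      rw [Polynomial.C_0] at hr
      exact hf.ne_zero hr.symm
    · rw [hr]; ring
  let _ : NormalizedGCDMonoid R := Classical.choice inferInstance
  have hprim : f.IsPrimitive := hf.isPrimitive h0
  have hirr : Irreducible (f.map (algebraMap R (FractionRing R))) :=
    hprim.irreducible_iff_irreducible_map_fraction_map.1 hf
  have hnd : ¬ f.map (algebraMap R (FractionRing R)) ∣ g.map (algebraMap R (FractionRing R)) :=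
    fun h => hfg (hprim.dvd_of_fraction_map_dvd_fraction_map h)
  have hcop : IsCoprime (f.map (algebraMap R (FractionRing R)))
      (g.map (algebraMap R (FractionRing R))) := hirr.coprime_iff_not_dvd.2 hnd
  have hres : f.resultant g ≠ 0 := by
    intro h
    have h1 : (f.map (algebraMap R (FractionRing R))).resultant
        (g.map (algebraMap R (FractionRing R))) = 0 := by
      have h2 := Polynomial.resultant_map_map f g f.natDegree g.natDegree
        (algebraMap R (FractionRing R))
      rw [h, map_zero] at h2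
      rw [Polynomial.natDegree_map_eq_of_injective (IsFractionRing.injective R (FractionRing R)),
        Polynomial.natDegree_map_eq_of_injective (IsFractionRing.injective R (FractionRing R))]
      exact h2
    exact (Polynomial.resultant_eq_zero_iff.1 h1).2 hcop
  obtain ⟨a, b, -, -, hab⟩ :=
    Polynomial.exists_mul_add_mul_eq_C_resultant f g le_rfl le_rfl (Or.inl h0)
  exact ⟨a, b, _, hres, by rw [← hab]; ring⟩

open Classical in
/-- polynomials as polynomials in one variable -/
noncomputable def phi {σ : Type*} (s : σ) :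
    MvPolynomial σ ℂ ≃ₐ[ℂ] Polynomial (MvPolynomial {t : σ // t ≠ s} ℂ) :=
  (renameEquiv ℂ (Equiv.optionSubtypeNe s).symm).trans (optionEquivLeft ℂ _)

lemma phi_X {σ : Type*} (s : σ) (i : {t : σ // t ≠ s}) :
    phi s (X i.1) = Polynomial.C (X i) := by
  classical
  rw [phi, AlgEquiv.trans_apply, renameEquiv_apply, rename_X]
  have h4 : (Equiv.optionSubtypeNe s).symm i.1 = some i := by
    rw [Equiv.symm_apply_eq]
    simp
  rw [h4, optionEquivLeft_X_some]

lemma phi_C {σ : Type*} (s : σ) (c : ℂ) : phi s (C c) = Polynomial.C (C c) := by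
  rw [phi, AlgEquiv.trans_apply, renameEquiv_apply, rename_C, optionEquivLeft_C]

lemma phi_rename {σ : Type*} (s : σ) (q : MvPolynomial {t : σ // t ≠ s} ℂ) :
    phi s (rename Subtype.val q) = Polynomial.C q := by
  induction q using MvPolynomial.induction_on with
  | C c => rw [rename_C, phi_C]
  | add p q hp hq => rw [map_add, map_add, hp, hq, Polynomial.C_add]
  | mul_X p i hp => rw [map_mul, map_mul, hp, rename_X, phi_X, Polynomial.C_mul]

/-- elimination of one variable -/
theorem elim_var {σ : Type*} (s : σ) {f g : MvPolynomial σ ℂ} (hf : Irreducible f)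
    (hfg : ¬ f ∣ g) : ∃ (a b : MvPolynomial σ ℂ) (r : MvPolynomial {t : σ // t ≠ s} ℂ), r ≠ 0 ∧
      a * f + b * g = rename Subtype.val r := by
  have h1 : Irreducible (phi s f) := (MulEquiv.irreducible_iff (phi s)).mpr hf
  have h2 : ¬ phi s f ∣ phi s g := fun h => hfg ((map_dvd_iff (phi s)).mp h)
  obtain ⟨a, b, r, hr, hab⟩ := elim h1 h2
  refine ⟨(phi s).symm a, (phi s).symm b, r, hr, ?_⟩
  apply (phi s).injective
  rw [map_add, map_mul, map_mul, AlgEquiv.apply_symm_apply, AlgEquiv.apply_symm_apply, hab,
    phi_rename]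

/-- a common zero of all but one derivative -/
lemma exists_zero (hd : 2 ≤ d) (i0 : Fin n) {f : MvPolynomial (Fin n) ℂ}
    (hf : f.IsHomogeneous d) : ∃ x : Fin n → ℂ, x ≠ 0 ∧ ∀ j, j ≠ i0 → eval x (pderiv j f) = 0 := by
  classical
  by_contra hcon
  push Not at hcon
  have hreg := reg_of_common_zero (Function.update (fun j => pderiv j f) i0 0) (fun _ => d - 1)
    (fun _ => by omega) (by
      intro i
      by_cases hi : i = i0
      · rw [hi, Function.update_self]; exact isHomogeneous_zero _ _ _
      · rw [Function.update_of_ne hi]; exact hf.pderiv) (by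
      intro x hx
      by_contra hx0
      obtain ⟨j, hj, hjx⟩ := hcon x hx0
      apply hjx
      have := hx j
      rwa [Function.update_of_ne hj] at this)
  have h1 := hreg i0 1 (by
    rw [Function.update_self, zero_mul]; exact Ideal.zero_mem _)
  have h2 : Ideal.span (Function.update (fun j => pderiv j f) i0 0 '' {j | j < i0}) ≤
      RingHom.ker (eval (0 : Fin n → ℂ)) := by
    rw [Ideal.span_le]
    rintro _ ⟨j, hj, rfl⟩
    rw [SetLike.mem_coe, RingHom.mem_ker]
    have hj' : j ≠ i0 := ne_of_lt hj
    rw [Function.update_of_ne hj']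
    exact eval_zero_homog (m := d - 1) (by omega) hf.pderiv
  have h3 := h2 h1
  rw [RingHom.mem_ker, map_one] at h3
  exact one_ne_zero h3

/-- the derivatives of a form, termwise -/
lemma eval_pderiv_sum {p : MvPolynomial (Fin n) ℂ} (hp : p.IsHomogeneous d) (x : Fin n → ℂ)
    (j : Fin n) : eval x (pderiv j p) = ∑ α : Mon n d, cf d p α *
      ((α.1 j : ℂ) * ∏ i, x i ^ (α.1 - Finsupp.single j 1 : Fin n →₀ ℕ) i) := by
  classical
  conv_lhs => rw [homog_eq_sum hp]
  rw [map_sum, map_sum]
  refine Finset.sum_congr rfl fun α _ => ?_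
  rw [pderiv_C_mul, mon, pderiv_monomial, one_mul, map_mul, eval_C, cf]
  congr 1
  have h1 : (monomial (α.1 - Finsupp.single j 1) (α.1 j : ℂ) : MvPolynomial (Fin n) ℂ) =
      C (α.1 j : ℂ) * mon ℂ (α.1 - Finsupp.single j 1) := by
    rw [mon, C_mul_monomial, mul_one]
  rw [h1, map_mul, eval_C, eval_mon]

open Classical in
/-- the coefficients of the form obtained by setting one variable to zero and adding its power -/
noncomputable def cut (n d : ℕ) (i0 : Fin n) (a : Mon n d → ℂ) : Mon n d → ℂ := fun α =>
  if α.1 = Finsupp.single i0 d then 1 else if α.1 i0 = 0 then a α else 0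

open Classical in
/-- the corresponding ring homomorphism -/
noncomputable def cutHom (n d : ℕ) (i0 : Fin n) :
    MvPolynomial (Mon n d) ℂ →+* MvPolynomial (Mon n d) ℂ :=
  eval₂Hom C fun α => if α.1 = Finsupp.single i0 d then 1 else if α.1 i0 = 0 then X α else 0

lemma eval_cutHom (i0 : Fin n) (a : Mon n d → ℂ) (P : MvPolynomial (Mon n d) ℂ) :
    eval a (cutHom n d i0 P) = eval (cut n d i0 a) P := by
  classical
  have h : (eval a).comp (cutHom n d i0) = eval (cut n d i0 a) := by
    apply MvPolynomial.ringHom_ext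
    · intro r
      simp [cutHom]
    · intro α
      rw [RingHom.comp_apply, cutHom, coe_eval₂Hom, eval₂_X, eval_X, cut]
      split_ifs <;> simp
  exact RingHom.congr_fun h P

lemma cut_fermat (hd : 2 ≤ d) (i0 : Fin n) :
    cut n d i0 (cf d (∑ i, X i ^ d : MvPolynomial (Fin n) ℂ)) =
      cf d (∑ i, X i ^ d : MvPolynomial (Fin n) ℂ) := by
  classical
  have h0 : ∀ α : Mon n d, cf d (∑ i, X i ^ d : MvPolynomial (Fin n) ℂ) α =
      ∑ i, if Finsupp.single i d = α.1 then (1 : ℂ) else 0 := by
    intro α
    rw [cf, coeff_sum]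
    refine Finset.sum_congr rfl fun i _ => ?_
    rw [coeff_X_pow]
  ext1 α
  rw [cut]
  split_ifs with h1 h2
  · rw [h0, Finset.sum_eq_single i0]
    · rw [if_pos h1.symm]
    · intro i _ hi
      rw [if_neg]
      rw [h1]
      intro h
      rcases (Finsupp.single_eq_single_iff _ _ _ _).mp h with h2 | h2
      · exact hi h2.1
      · omega
    · intro h; exact absurd (Finset.mem_univ _) h
  · rfl
  · rw [h0, Finset.sum_eq_zero]
    intro i _
    rw [if_neg]
    intro h
    by_cases hi : i = i0
    · exact h1 (by rw [← h, hi])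
    · apply h2
      rw [← h]
      simp [hi]

/-- the restriction to a coordinate hyperplane and the given form have the same other derivatives
at the points of the hyperplane -/
lemma cut_zero (hd : 2 ≤ d) (i0 : Fin n) {f h : MvPolynomial (Fin n) ℂ} (hf : f.IsHomogeneous d)
    (hh : h.IsHomogeneous d) (hc : cf d h = cut n d i0 (cf d f)) {x : Fin n → ℂ} (hx0 : x i0 = 0)
    (hx : ∀ j, j ≠ i0 → eval x (pderiv j f) = 0) (j : Fin n) : eval x (pderiv j h) = 0 := by
  classical
  have key : ∀ α : Mon n d, ((cut n d i0 (cf d f) α = 0 ∨ α.1 j = 0) ∨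
      (cut n d i0 (cf d f) α = cf d f α ∧ j ≠ i0)) ∨
      (α.1 - Finsupp.single j 1 : Fin n →₀ ℕ) i0 ≠ 0 := by
    intro α
    rw [cut]
    split_ifs with h1 h2
    · right
      rw [h1]
      simp only [Finsupp.tsub_apply, Finsupp.single_eq_same]
      have : (Finsupp.single j 1 : Fin n →₀ ℕ) i0 ≤ 1 := by
        rw [Finsupp.single_apply]; split_ifs <;> simp
      omega
    · left
      by_cases hj : j = i0
      · left; right; rw [hj, h2]
      · right; exact ⟨rfl, hj⟩
    · left; left; left; rfl
  by_cases hj : j = i0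
  · rw [eval_pderiv_sum hh, Finset.sum_eq_zero]
    intro α _
    rw [hc]
    rcases key α with ((h1 | h1) | h1) | h1
    · rw [h1, zero_mul]
    · rw [h1]; simp
    · exact absurd hj h1.2
    · rw [Finset.prod_eq_zero (Finset.mem_univ i0), mul_zero, mul_zero]
      rw [hx0, zero_pow h1]
  · rw [← hx j hj, eval_pderiv_sum hh, eval_pderiv_sum hf]
    refine Finset.sum_congr rfl fun α _ => ?_
    rw [hc]
    by_cases h0 : (α.1 - Finsupp.single j 1 : Fin n →₀ ℕ) i0 = 0
    · have h1 : α.1 i0 = 0 := by
        simp only [Finsupp.tsub_apply, Finsupp.single_eq_of_ne (Ne.symm hj), tsub_zero] at h0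
        exact h0
      have h2 : α.1 ≠ Finsupp.single i0 d := by
        intro h2
        rw [h2, Finsupp.single_eq_same] at h1
        omega
      rw [cut, if_neg h2, if_pos h1]
    · rw [Finset.prod_eq_zero (Finset.mem_univ i0)]
      · ring
      · rw [hx0, zero_pow h0]

/-- a polynomial which vanishes at the degenerate forms and does not contain the coefficient of a
power of a variable is zero -/
theorem not_mem_sing (hn : 2 ≤ n) (hd : 3 ≤ d) (i0 : Fin n)
    {r : MvPolynomial {t : Mon n d // t ≠ ⟨Finsupp.single i0 d, Finsupp.degree_single _ _⟩} ℂ}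
    (hr : rename Subtype.val r ∈ sing n d) : r = 0 := by
  classical
  obtain ⟨D, hD, hD1⟩ := exists_sing hn hd (f := ∑ i, X i ^ d) fermat_homog
    (fermat_nondeg (by omega))
  have h1 : rename Subtype.val r * cutHom n d i0 D = 0 := by
    apply MvPolynomial.funext
    intro a
    rw [map_mul, map_zero]
    by_cases hG : eval a (cutHom n d i0 D) = 0
    · rw [hG, mul_zero]
    · rw [eval_cutHom] at hG
      obtain ⟨f, hf, rfl⟩ := exists_form a
      obtain ⟨h, hh, hhc⟩ := exists_form (cut n d i0 (cf d f))
      have hns : IsNondeg h := by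
        by_contra hs
        apply hG
        rw [← hhc]
        exact hD h hh hs
      obtain ⟨x, hx0, hx⟩ := exists_zero (by omega) i0 hf
      have hxi : x i0 ≠ 0 := by
        intro hxi
        exact hx0 (hns x fun j => cut_zero (by omega) i0 hf hh hhc hxi hx j)
      set u : ℂ := -(eval x (pderiv i0 f)) / (d * x i0 ^ (d - 1)) with hu
      have hden : (d : ℂ) * x i0 ^ (d - 1) ≠ 0 :=
        mul_ne_zero (by rw [Nat.cast_ne_zero]; omega) (pow_ne_zero _ hxi)
      have hf' : (f + C u * X i0 ^ d).IsHomogeneous d := by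
        refine hf.add ?_
        have := (isHomogeneous_C (Fin n) u).mul (isHomogeneous_X_pow (R := ℂ) i0 d)
        rwa [zero_add] at this
      have hdeg : ¬ IsNondeg (f + C u * X i0 ^ d) := by
        intro hs
        apply hx0
        apply hs
        intro j
        rw [map_add, pderiv_C_mul, pderiv_pow, map_add]
        by_cases hj : j = i0
        · rw [hj, pderiv_X_self]
          simp only [map_mul, eval_C, map_pow, eval_X, mul_one, map_natCast]
          rw [hu, div_mul_cancel₀ _ hden]
          ring
        · rw [hx j hj, pderiv_X_of_ne (Ne.symm hj)]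
          simp
      have h2 := hr _ hf' hdeg
      rw [eval_rename] at h2
      have h3 : cf d (f + C u * X i0 ^ d) ∘ (Subtype.val :
          {t : Mon n d // t ≠ ⟨Finsupp.single i0 d, Finsupp.degree_single _ _⟩} → Mon n d) =
          cf d f ∘ Subtype.val := by
        ext1 t
        simp only [Function.comp_apply, cf, coeff_add, coeff_C_mul, coeff_X_pow]
        rw [if_neg, mul_zero, add_zero]
        intro h4
        exact t.2 (Subtype.ext h4.symm)
      rw [h3] at h2
      rw [eval_rename, h2, zero_mul]
  have h2 : cutHom n d i0 D ≠ 0 := by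
    intro h
    have h3 := eval_cutHom i0 (cf d (∑ i, X i ^ d : MvPolynomial (Fin n) ℂ)) D
    rw [h, map_zero, cut_fermat (by omega), hD1] at h3
    exact zero_ne_one h3
  have h3 := (mul_eq_zero.mp h1).resolve_right h2
  exact rename_injective _ Subtype.val_injective (by rw [h3, map_zero])

/-- The discriminant exists. -/
theorem exists_disc (hn : 2 ≤ n) (hd : 3 ≤ d) : ∃ Δ, IsDiscriminant n d Δ := by
  classical
  have i0 : Fin n := ⟨0, by omega⟩
  have hne : sing n d ≠ ⊥ := by
    intro h
    obtain ⟨D, hD, hD1⟩ := exists_sing hn hd (f := ∑ i, X i ^ d) fermat_homog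
      (fermat_nondeg (by omega))
    rw [h, Ideal.mem_bot] at hD
    rw [hD, map_zero] at hD1
    exact zero_ne_one hD1
  obtain ⟨Δ, hΔ, hprime⟩ := (sing_prime (by omega) (by omega)).exists_mem_prime_of_ne_bot hne
  refine ⟨Δ, hprime.irreducible, fun f hf => ⟨fun h0 hs => ?_, hΔ f hf⟩⟩
  obtain ⟨D, hD, hD1⟩ := exists_sing hn hd hf hs
  have hndvd : ¬ Δ ∣ D := by
    rintro ⟨E, rfl⟩
    rw [map_mul, h0, zero_mul] at hD1
    exact zero_ne_one hD1
  obtain ⟨a, b, r, hr, hab⟩ := elim_var
    (⟨Finsupp.single i0 d, Finsupp.degree_single _ _⟩ : Mon n d) hprime.irreducible hndvd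
  apply hr
  apply not_mem_sing hn hd i0
  rw [← hab]
  exact Ideal.add_mem _ (Ideal.mul_mem_left _ _ hΔ) (Ideal.mul_mem_left _ _ hD)

end Pool.Agent.L5helper21.AF
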