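import Pool.Agent.L5helper21.AF.Max

/-!
The residue functional of the special family, and a denominator with a simple zero.
-/

set_option autoImplicit false

open MvPolynomial

namespace Pool.Agent.L5helper21.AF

variable {n d : ℕ}

/-- a primitive `(d - 1)`-th root of unity -/
noncomputable def om (d : ℕ) : ℂ := Complex.exp (2 * Real.pi * Complex.I / ((d - 1 : ℕ) : ℂ))

lemma om_prim (hd : 3 ≤ d) : IsPrimitiveRoot (om d) (d - 1) :=
  Complex.isPrimitiveRoot_exp (d - 1) (by omega)

/-- the points whose coordinates are roots of unity -/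
noncomputable def pt (n d : ℕ) (g : Fin n → Fin (d - 1)) : Fin n → ℂ := fun i => om d ^ (g i : ℕ)

lemma pt_pow (hd : 3 ≤ d) (g : Fin n → Fin (d - 1)) (i : Fin n) : pt n d g i ^ (d - 1) = 1 := by
  rw [pt, ← pow_mul, mul_comm, pow_mul, (om_prim hd).pow_eq_one, one_pow]

/-- the power of the sum of the coordinates -/
noncomputable def val (n d : ℕ) (g : Fin n → Fin (d - 1)) : ℂ := (∑ i, pt n d g i) ^ (d - 1)

lemma orth (hn : 2 ≤ n) (hd : 3 ≤ d) (γ : Fin n →₀ ℕ)
    (hγ : γ.degree = n * (d - 2) - (d - 1)) :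
    ∑ g : Fin n → Fin (d - 1), ∏ i, pt n d g i ^ (γ i + 1) = 0 := by
  classical
  obtain ⟨i, hi⟩ : ∃ i, ¬ (d - 1) ∣ (γ i + 1) := by
    by_contra hcon
    push Not at hcon
    have h1 : ∀ i, d - 2 ≤ γ i := fun i => by
      have := Nat.le_of_dvd (Nat.succ_pos _) (hcon i)
      omega
    have h2 : ∑ _i : Fin n, (d - 2) ≤ ∑ i, γ i := Finset.sum_le_sum fun i _ => h1 i
    rw [Finset.sum_const, Finset.card_univ, Fintype.card_fin, smul_eq_mul] at h2
    rw [Finsupp.degree_eq_sum] at hγ
    have h3 : 2 * (d - 2) ≤ n * (d - 2) := Nat.mul_le_mul_right _ hn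
    omega
  have h1 : ∑ g : Fin n → Fin (d - 1), ∏ i, pt n d g i ^ (γ i + 1) =
      ∏ i, ∑ j : Fin (d - 1), (om d ^ (j : ℕ)) ^ (γ i + 1) := by
    rw [Finset.prod_univ_sum, Fintype.piFinset_univ]
    rfl
  rw [h1]
  refine Finset.prod_eq_zero (Finset.mem_univ i) ?_
  have h2 : ∀ j : Fin (d - 1), (om d ^ (j : ℕ)) ^ (γ i + 1) = (om d ^ (γ i + 1)) ^ (j : ℕ) := by
    intro j
    rw [← pow_mul, ← pow_mul, mul_comm]
  rw [Finset.sum_congr rfl fun j _ => h2 j, Fin.sum_univ_eq_sum_range
    (fun j => (om d ^ (γ i + 1)) ^ j)]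
  have h3 : om d ^ (γ i + 1) ≠ 1 := by
    intro h
    exact hi ((om_prim hd).dvd_of_pow_eq_one _ h)
  have h4 := geom_sum_mul (om d ^ (γ i + 1)) (d - 1)
  rw [← pow_mul, mul_comm (γ i + 1), pow_mul, (om_prim hd).pow_eq_one, one_pow, sub_self] at h4
  exact (mul_eq_zero.mp h4).resolve_right (sub_ne_zero.mpr h3)

open Classical in
/-- the values -/
noncomputable def vals (n d : ℕ) : Finset ℂ := Finset.univ.image (val n d)

/-- the product of the denominators -/
noncomputable def Pi0 (n d : ℕ) : Polynomial ℂ :=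
  ∏ v ∈ vals n d, (1 - Polynomial.X * Polynomial.C v)

open Classical in
/-- the product of the denominators with one exception -/
noncomputable def PiE (n d : ℕ) (v : ℂ) : Polynomial ℂ :=
  ∏ w ∈ (vals n d).erase v, (1 - Polynomial.X * Polynomial.C w)

lemma PiE_mul {v : ℂ} (hv : v ∈ vals n d) :
    (1 - Polynomial.X * Polynomial.C v) * PiE n d v = Pi0 n d := by
  classical
  rw [PiE, Pi0, Finset.mul_prod_erase _ (fun v => 1 - Polynomial.X * Polynomial.C v) hv]

lemma val_mem (g : Fin n → Fin (d - 1)) : val n d g ∈ vals n d := by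
  classical
  exact Finset.mem_image_of_mem _ (Finset.mem_univ _)

/-- the functional -/
noncomputable def Lp (n d : ℕ) (h : MvPolynomial (Fin n) ℂ) : Polynomial ℂ :=
  ∑ g : Fin n → Fin (d - 1), Polynomial.C ((∏ i, pt n d g i) * eval (pt n d g) h) *
    PiE n d (val n d g)

lemma Lp_add (h h' : MvPolynomial (Fin n) ℂ) : Lp n d (h + h') = Lp n d h + Lp n d h' := by
  simp only [Lp, eval_add, mul_add, Polynomial.C_add, add_mul, Finset.sum_add_distrib]

lemma Lp_C_mul (a : ℂ) (h : MvPolynomial (Fin n) ℂ) :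
    Lp n d (C a * h) = Polynomial.C a * Lp n d h := by
  simp only [Lp, eval_mul, eval_C, Finset.mul_sum]
  refine Finset.sum_congr rfl fun g _ => ?_
  rw [mul_left_comm, Polynomial.C_mul, mul_assoc]

lemma Lp_sum {ι : Type*} (s : Finset ι) (h : ι → MvPolynomial (Fin n) ℂ) :
    Lp n d (∑ i ∈ s, h i) = ∑ i ∈ s, Lp n d (h i) := by
  classical
  induction s using Finset.induction_on with
  | empty => simp [Lp]
  | insert a s ha ih => rw [Finset.sum_insert ha, Finset.sum_insert ha, Lp_add, ih]

/-- the functional kills the jacobian ideal in top degree -/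
lemma Lp_jac (hn : 2 ≤ n) (hd : 3 ≤ d) (c : ℂ) {g : MvPolynomial (Fin n) ℂ}
    (hg : g.IsHomogeneous (n * (d - 2) - (d - 1))) (j : Fin n) :
    (Lp n d (g * pderiv j (fam n d c))).eval c = 0 := by
  classical
  have hmon : ∀ γ : Mon n (n * (d - 2) - (d - 1)),
      (Lp n d (mon ℂ γ.1 * pderiv j (fam n d c))).eval c = 0 := by
    intro γ
    rw [Lp, Polynomial.eval_finsetSum]
    have h1 : ∀ g : Fin n → Fin (d - 1),
        (Polynomial.C ((∏ i, pt n d g i) * eval (pt n d g) (mon ℂ γ.1 * pderiv j (fam n d c))) *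
          PiE n d (val n d g)).eval c =
        (d : ℂ) * (Pi0 n d).eval c * ∏ i, pt n d g i ^ (γ.1 i + 1) := by
      intro g
      have h2 : eval (pt n d g) (pderiv j (fam n d c)) = d * (1 - c * val n d g) := by
        rw [pderiv_fam]
        simp only [eval_mul, eval_C, eval_sub, eval_pow, eval_X, map_sum]
        rw [pt_pow hd, val]
      rw [Polynomial.eval_mul, Polynomial.eval_C, eval_mul, h2, eval_mon,
        ← PiE_mul (val_mem g)]
      simp only [Polynomial.eval_mul, Polynomial.eval_sub, Polynomial.eval_one,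
        Polynomial.eval_X, Polynomial.eval_C, pow_succ, Finset.prod_mul_distrib]
      ring
    rw [Finset.sum_congr rfl fun g _ => h1 g, ← Finset.mul_sum, orth hn hd γ.1 γ.2, mul_zero]
  rw [homog_eq_sum hg, Finset.sum_mul, Lp_sum, Polynomial.eval_finsetSum]
  refine Finset.sum_eq_zero fun γ _ => ?_
  rw [mul_assoc, Lp_C_mul, Polynomial.eval_mul, hmon, mul_zero]

lemma eval_hess (hd : 3 ≤ d) (c : ℂ) (g : Fin n → Fin (d - 1)) :
    (∏ i, pt n d g i) * eval (pt n d g) (hess (fam n d c)) =
      ((d : ℂ) * (d - 1 : ℕ)) ^ n * (1 - c * val n d g) := by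
  classical
  have h1 : ∀ i j, eval (pt n d g) (pderiv i (pderiv j (fam n d c))) =
      (d : ℂ) * (d - 1 : ℕ) * ((if i = j then pt n d g i ^ (d - 2) else 0) -
        c * (∑ i, pt n d g i) ^ (d - 2)) := by
    intro i j
    rw [pderiv_fam, pderiv_C_mul, map_sub, pderiv_C_mul, pderiv_pow, pderiv_pow, pderiv_sumX,
      pderiv_X]
    simp only [eval_mul, eval_C, eval_sub, eval_pow, eval_X, map_sum, map_natCast,
      Pi.single_apply, mul_one, show d - 1 - 1 = d - 2 by omega]
    by_cases hij : i = j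
    · subst hij; simp; ring
    · have : ¬ j = i := fun h => hij h.symm
      simp [hij, this]; ring
  have h2 : eval (pt n d g) (hess (fam n d c)) = Matrix.det (Matrix.of fun i j =>
      (d : ℂ) * (d - 1 : ℕ) * ((if i = j then pt n d g i ^ (d - 2) else 0) -
        c * (∑ i, pt n d g i) ^ (d - 2))) := by
    rw [hess, RingHom.map_det]
    congr 1
    ext1 i j
    rw [RingHom.mapMatrix_apply, Matrix.map_apply, Matrix.of_apply, Matrix.of_apply, h1]
  rw [h2, ← Matrix.det_diagonal, ← Matrix.det_mul]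
  have h3 : Matrix.diagonal (pt n d g) * Matrix.of (fun i j =>
      (d : ℂ) * (d - 1 : ℕ) * ((if i = j then pt n d g i ^ (d - 2) else 0) -
        c * (∑ i, pt n d g i) ^ (d - 2))) = ((d : ℂ) * (d - 1 : ℕ)) •
      (1 - Matrix.replicateCol Unit (fun i => pt n d g i * (c * (∑ i, pt n d g i) ^ (d - 2))) *
        Matrix.replicateRow Unit (fun _ => (1 : ℂ))) := by
    ext1 i j
    rw [Matrix.diagonal_mul, Matrix.of_apply, Matrix.smul_apply, Matrix.sub_apply,
      Matrix.one_apply, Matrix.mul_apply]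
    simp only [Finset.univ_unique, Matrix.replicateCol_apply, Matrix.replicateRow_apply, mul_one,
      Finset.sum_const, Finset.card_singleton, one_smul, smul_eq_mul]
    have h4 : pt n d g i * pt n d g i ^ (d - 2) = 1 := by
      rw [← pow_succ', show d - 2 + 1 = d - 1 by omega, pt_pow hd]
    by_cases hij : i = j
    · rw [if_pos hij, if_pos hij]
      linear_combination ((d : ℂ) * (d - 1 : ℕ)) * h4
    · rw [if_neg hij, if_neg hij]
      ring
  rw [h3, Matrix.det_smul, Fintype.card_fin, Matrix.det_one_sub_mul_comm]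
  congr 1
  rw [Matrix.det_unique, Matrix.sub_apply, Matrix.one_apply_eq, Matrix.mul_apply, val]
  simp only [Matrix.replicateCol_apply, Matrix.replicateRow_apply, one_mul]
  rw [← Finset.sum_mul]
  have h5 : (∑ i, pt n d g i) * (∑ i, pt n d g i) ^ (d - 2) = (∑ i, pt n d g i) ^ (d - 1) := by
    rw [← pow_succ', show d - 2 + 1 = d - 1 by omega]
  linear_combination -c * h5

lemma Lp_hess (hd : 3 ≤ d) (c : ℂ) : (Lp n d (hess (fam n d c))).eval c =
    (((d : ℂ) * (d - 1 : ℕ)) ^ n * ((d - 1 : ℕ) : ℂ) ^ n) * (Pi0 n d).eval c := by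
  rw [Lp, Polynomial.eval_finsetSum]
  have h1 : ∀ g : Fin n → Fin (d - 1),
      (Polynomial.C ((∏ i, pt n d g i) * eval (pt n d g) (hess (fam n d c))) *
          PiE n d (val n d g)).eval c =
        ((d : ℂ) * (d - 1 : ℕ)) ^ n * (Pi0 n d).eval c := by
    intro g
    rw [eval_hess hd, ← PiE_mul (val_mem g)]
    simp only [Polynomial.eval_mul, Polynomial.eval_sub, Polynomial.eval_one,
      Polynomial.eval_X, Polynomial.eval_C]
    ring
  rw [Finset.sum_congr rfl fun g _ => h1 g, Finset.sum_const, Finset.card_univ,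
    Fintype.card_fun, Fintype.card_fin, Fintype.card_fin, nsmul_eq_mul]
  push_cast
  ring

/-- the ring homomorphism given by the special family -/
noncomputable def theta (n d : ℕ) : MvPolynomial (Mon n d) ℂ →+* Polynomial ℂ :=
  eval₂Hom Polynomial.C fun α => Polynomial.C (coeff α.1 (∑ i, X i ^ d : MvPolynomial (Fin n) ℂ)) -
    Polynomial.X * Polynomial.C (coeff α.1 ((∑ i, X i) ^ d : MvPolynomial (Fin n) ℂ))

lemma eval_theta (c : ℂ) (P : MvPolynomial (Mon n d) ℂ) :
    (theta n d P).eval c = eval (cf d (fam n d c)) P := by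
  have h : (Polynomial.evalRingHom c).comp (theta n d) = eval (cf d (fam n d c)) := by
    apply MvPolynomial.ringHom_ext
    · intro r
      simp [theta]
    · intro α
      simp only [theta, RingHom.comp_apply, coe_eval₂Hom, eval₂_X, Polynomial.coe_evalRingHom,
        Polynomial.eval_sub, Polynomial.eval_C, Polynomial.eval_mul, Polynomial.eval_X, eval_X,
        cf, fam, coeff_sub, coeff_C_mul]
  exact RingHom.congr_fun h P

/-- the exponent with all entries `d - 2` -/
noncomputable def bst (n d : ℕ) : Mon n (n * (d - 2)) := ⟨cst n (d - 2), cst_degree _ _⟩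

open Classical in
/-- There is a denominator which vanishes at most simply, along the special family, at the form
which is singular at `(1, …, 1)`. -/
theorem simple_den (hn : 2 ≤ n) (hd : 3 ≤ d) :
    ∃ D ∈ den n d, ¬ (Polynomial.X - Polynomial.C (c0 n d)) ^ 2 ∣ theta n d D := by
  choose g hg1 hg2 using exists_rows hn hd
  set g' : Mon n (n * (d - 2)) → Fin n → MvPolynomial (Fin n) ℂ :=
    fun β => if β = bst n d then 0 else g β with hg'
  set r : Mon n (n * (d - 2)) → ℂ := fun β => if β = bst n d then 1 else 0 with hr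
  have hg'h : ∀ m i, (g' m i).IsHomogeneous (n * (d - 2) - (d - 1)) := by
    intro m i
    simp only [hg']
    split_ifs
    · exact isHomogeneous_zero _ _ _
    · exact hg1 m i
  refine ⟨(umat n d g' r).det, cramer hn hd hg'h r, ?_⟩
  set V := (theta n d).mapMatrix (umat n d g' r) with hV
  rw [RingHom.map_det, ← hV]
  -- the rows at the parameter `c`
  have hVc : ∀ c m m', (V m m').eval c =
      coeff m'.1 (rowf (fam n d c) (g' m) (r m)) := by
    intro c m m'
    rw [hV, RingHom.mapMatrix_apply, Matrix.map_apply, eval_theta]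
    have := congrFun (congrFun (umat_map (fam_homog c) g' r) m) m'
    rw [Matrix.map_apply, Matrix.of_apply] at this
    exact this
  set K : ℂ := ((d : ℂ) * (d - 1 : ℕ)) ^ n * ((d - 1 : ℕ) : ℂ) ^ n with hK
  have hK0 : K ≠ 0 := by
    have h1 : (d : ℂ) ≠ 0 := by rw [Nat.cast_ne_zero]; omega
    have h2 : ((d - 1 : ℕ) : ℂ) ≠ 0 := by rw [Nat.cast_ne_zero]; omega
    exact mul_ne_zero (pow_ne_zero _ (mul_ne_zero h1 h2)) (pow_ne_zero _ h2)
  have hmul : V.mulVec (fun m => Lp n d (mon ℂ m.1)) =
      Pi.single (bst n d) (Polynomial.C K * Pi0 n d) := by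
    ext1 m
    apply Polynomial.funext
    intro c
    have h1 : ((V.mulVec fun m => Lp n d (mon ℂ m.1)) m).eval c =
        (Lp n d (rowf (fam n d c) (g' m) (r m))).eval c := by
      rw [Matrix.mulVec, dotProduct, Polynomial.eval_finsetSum]
      conv_rhs => rw [homog_eq_sum (rowf_homog hn hd (fam_homog c) (hg'h m) (r m)), Lp_sum,
        Polynomial.eval_finsetSum]
      refine Finset.sum_congr rfl fun m' _ => ?_
      rw [Polynomial.eval_mul, hVc, Lp_C_mul, Polynomial.eval_mul, Polynomial.eval_C]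
    rw [h1, rowf, Lp_add, Lp_sum, Polynomial.eval_add, Polynomial.eval_finsetSum,
      Finset.sum_eq_zero (fun i _ => Lp_jac hn hd c (hg'h m i) i), zero_add, Lp_C_mul,
      Polynomial.eval_mul, Polynomial.eval_C, Lp_hess hd]
    by_cases hm : m = bst n d
    · rw [hm, Pi.single_eq_same, Polynomial.eval_mul, Polynomial.eval_C]
      simp only [hr, if_true, one_mul]
      rw [hK]
    · rw [Pi.single_eq_of_ne hm, Polynomial.eval_zero]
      simp only [hr, if_neg hm, zero_mul]
  have hmain : V.det * Lp n d (mon ℂ (bst n d).1) =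
      V.adjugate (bst n d) (bst n d) * (Polynomial.C K * Pi0 n d) := by
    have h1 : V.adjugate.mulVec (V.mulVec (fun m => Lp n d (mon ℂ m.1))) =
        V.det • (fun m => Lp n d (mon ℂ m.1)) := by
      rw [Matrix.mulVec_mulVec, Matrix.adjugate_mul, Matrix.smul_mulVec, Matrix.one_mulVec]
    have h2 := congrFun h1 (bst n d)
    rw [hmul, Matrix.mulVec_single] at h2
    simp only [Pi.smul_apply, smul_eq_mul] at h2
    rw [← h2]
    simp [mul_comm]
  intro hdvd
  set q : Polynomial ℂ := Polynomial.X - Polynomial.C (c0 n d) with hq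
  have hqp : Prime q := Polynomial.prime_X_sub_C _
  have h1 : q ^ 2 ∣ V.adjugate (bst n d) (bst n d) * (Polynomial.C K * Pi0 n d) :=
    hmain ▸ Dvd.dvd.mul_right hdvd _
  -- the adjugate does not vanish at the special parameter
  have h2 : (V.adjugate (bst n d) (bst n d)).eval (c0 n d) = 1 := by
    have h3 : (V.adjugate (bst n d) (bst n d)).eval (c0 n d) =
        ((Polynomial.evalRingHom (c0 n d)).mapMatrix V).adjugate (bst n d) (bst n d) := by
      have h := congrFun (congrFun (RingHom.map_adjugate (Polynomial.evalRingHom (c0 n d)) V)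
        (bst n d)) (bst n d)
      exact h
    rw [h3, Matrix.adjugate_apply]
    have h4 : ((Polynomial.evalRingHom (c0 n d)).mapMatrix V).updateRow (bst n d)
        (Pi.single (bst n d) 1) = 1 - Matrix.replicateCol Unit
          (fun m => if m = bst n d then (0 : ℂ) else 1) *
          Matrix.replicateRow Unit (fun m => if m = bst n d then (1 : ℂ) else 0) := by
      ext1 m m'
      rw [Matrix.sub_apply, Matrix.one_apply, Matrix.mul_apply]
      simp only [Finset.univ_unique, Matrix.replicateCol_apply, Matrix.replicateRow_apply,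
        Finset.sum_const, Finset.card_singleton, one_smul]
      by_cases hm : m = bst n d
      · rw [hm, Matrix.updateRow_self, Pi.single_apply, if_pos rfl, zero_mul, sub_zero]
        by_cases hm' : m' = bst n d
        · rw [if_pos hm', if_pos hm'.symm]
        · rw [if_neg hm', if_neg (Ne.symm hm')]
      · rw [Matrix.updateRow_ne hm, if_neg hm, one_mul, RingHom.mapMatrix_apply,
          Matrix.map_apply, Polynomial.coe_evalRingHom, hVc]
        have h5 : rowf (fam n d (c0 n d)) (g' m) (r m) = mon ℂ m.1 - mon ℂ (cst n (d - 2)) := by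
          rw [rowf]
          simp only [hr, hg', if_neg hm, C_0, zero_mul, add_zero]
          exact hg2 m
        rw [h5, coeff_sub, coeff_mon, coeff_mon]
        have e1 : (m.1 = m'.1) ↔ m = m' := Subtype.ext_iff.symm
        have e2 : (cst n (d - 2) = m'.1) ↔ m' = bst n d := by
          rw [Subtype.ext_iff]; exact eq_comm
        simp only [e1, e2]
    rw [h4, Matrix.det_one_sub_mul_comm, Matrix.det_unique, Matrix.sub_apply,
      Matrix.one_apply_eq, Matrix.mul_apply]
    simp only [Matrix.replicateCol_apply, Matrix.replicateRow_apply]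
    rw [Finset.sum_eq_zero, sub_zero]
    intro m _
    split_ifs <;> simp
  have h3 : ¬ q ∣ V.adjugate (bst n d) (bst n d) := by
    intro h
    have := Polynomial.dvd_iff_isRoot.mp h
    rw [Polynomial.IsRoot.def, h2] at this
    exact one_ne_zero this
  have h4 : q ^ 2 ∣ Polynomial.C K * Pi0 n d := hqp.pow_dvd_of_dvd_mul_left 2 h3 h1
  have h5 : q ^ 2 ∣ Pi0 n d := by
    have h6 : Pi0 n d = Polynomial.C K⁻¹ * (Polynomial.C K * Pi0 n d) := by
      rw [← mul_assoc, ← Polynomial.C_mul, inv_mul_cancel₀ hK0, Polynomial.C_1, one_mul]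
    rw [h6]
    exact Dvd.dvd.mul_left h4 _
  -- the value at the constant tuple
  have hnn : ((n : ℂ) ^ (d - 1)) ≠ 0 := pow_ne_zero _ (by rw [Nat.cast_ne_zero]; omega)
  have hval : (n : ℂ) ^ (d - 1) ∈ vals n d := by
    have h6 := val_mem (n := n) (d := d) fun _ => ⟨0, by omega⟩
    have h7 : val n d (fun _ => ⟨0, by omega⟩) = (n : ℂ) ^ (d - 1) := by
      rw [val]
      congr 1
      simp [pt]
    rwa [h7] at h6
  rw [← PiE_mul hval] at h5
  have h6 : (1 - Polynomial.X * Polynomial.C ((n : ℂ) ^ (d - 1)) : Polynomial ℂ) =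
      Polynomial.C (-(n : ℂ) ^ (d - 1)) * q := by
    have h7 : (Polynomial.C ((n : ℂ) ^ (d - 1)) * Polynomial.C (c0 n d) : Polynomial ℂ) = 1 := by
      rw [← Polynomial.C_mul, c0, mul_inv_cancel₀ hnn, Polynomial.C_1]
    rw [hq, Polynomial.C_neg]
    linear_combination -h7
  rw [h6, pow_two, mul_comm (Polynomial.C _) q, mul_assoc] at h5
  have h7 : q ∣ Polynomial.C (-(n : ℂ) ^ (d - 1)) * PiE n d ((n : ℂ) ^ (d - 1)) :=
    (mul_dvd_mul_iff_left hqp.ne_zero).mp h5
  have h8 := Polynomial.dvd_iff_isRoot.mp h7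
  rw [Polynomial.IsRoot.def, Polynomial.eval_mul, Polynomial.eval_C] at h8
  have h9 := (mul_eq_zero.mp h8).resolve_left (neg_ne_zero.mpr hnn)
  rw [PiE, Polynomial.eval_prod, Finset.prod_eq_zero_iff] at h9
  obtain ⟨w, hw, hw0⟩ := h9
  simp only [Polynomial.eval_mul, Polynomial.eval_sub, Polynomial.eval_one,
    Polynomial.eval_X, Polynomial.eval_C] at hw0
  apply Finset.ne_of_mem_erase hw
  rw [c0] at hw0
  have h10 : ((n : ℂ) ^ (d - 1)) * (1 - ((n : ℂ) ^ (d - 1))⁻¹ * w) = 0 := by rw [hw0, mul_zero]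
  rw [mul_sub, ← mul_assoc, mul_inv_cancel₀ hnn] at h10
  linear_combination -h10

end Pool.Agent.L5helper21.AF
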