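import Pool.Agent.L5helper21.AF.Den

/-!
The special family `∑ X_i ^ d - c (∑ X_i) ^ d`, and the top degree part of its jacobian ideal for
the parameter for which it is singular at `(1, …, 1)`: a maximum principle.
-/

set_option autoImplicit false

open MvPolynomial

namespace Pool.Agent.L5helper21.AF

variable {n d : ℕ}

/-- the exponent with all entries `k` -/
noncomputable def cst (n k : ℕ) : Fin n →₀ ℕ := Finsupp.equivFunOnFinite.symm fun _ => k

@[simp] lemma cst_apply (n k : ℕ) (i : Fin n) : cst n k i = k := rfl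

lemma cst_degree (n k : ℕ) : (cst n k).degree = n * k := by
  rw [Finsupp.degree_eq_sum]
  simp

lemma sum_mult (n e : ℕ) : ∑ κ : Mon n e, (mult κ : ℝ) = (n : ℝ) ^ e := by
  have h := lin_pow (n := n) (R := ℝ) e (fun _ => 1)
  simp only [one_pow, Finset.prod_const_one, mul_one, Finset.sum_const, Finset.card_univ,
    Fintype.card_fin, nsmul_eq_mul] at h
  rw [h]

/-- the sum of the excesses of the exponents over `k` -/
def excess (k : ℕ) (β : Fin n →₀ ℕ) : ℕ := ∑ i, (β i - k)

/-- A function on the exponents of degree `n (e - 1)` whose values are weighted means of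
neighbouring values except at one point has its maximum there. -/
theorem max_principle (hn : 1 ≤ n) {e : ℕ} (he : 2 ≤ e) (hN : e ≤ n * (e - 1))
    (v : (Fin n →₀ ℕ) → ℝ)
    (hv : ∀ γ : Fin n →₀ ℕ, γ.degree = n * (e - 1) - e → ∀ j,
      (n : ℝ) ^ e * v (γ + Finsupp.single j e) = ∑ κ : Mon n e, (mult κ : ℝ) * v (γ + κ.1))
    (β : Fin n →₀ ℕ) (hβ : β.degree = n * (e - 1)) : v β ≤ v (cst n (e - 1)) := by
  classical
  have : Nonempty (Mon n (n * (e - 1))) := ⟨⟨β, hβ⟩⟩
  obtain ⟨β₀, hmax⟩ := Finite.exists_max fun β : Mon n (n * (e - 1)) => v β.1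
  set M := v β₀.1 with hM
  have key : ∀ k, ∀ β : Fin n →₀ ℕ, β.degree = n * (e - 1) → v β = M → excess (e - 1) β = k →
      v (cst n (e - 1)) = M := by
    intro k
    induction k with
    | zero =>
      intro β hβ hvβ hex
      have h1 : ∀ i, β i ≤ e - 1 := by
        intro i
        have h2 : β i - (e - 1) = 0 := by
          have := Finset.sum_eq_zero_iff.mp hex i (Finset.mem_univ i)
          exact this
        omega
      have h2 : β = cst n (e - 1) := by
        ext i
        rw [cst_apply]
        by_contra hne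
        have h3 : β i < e - 1 := lt_of_le_of_ne (h1 i) hne
        have h4 : ∑ i, β i < ∑ _i : Fin n, (e - 1) :=
          Finset.sum_lt_sum (fun i _ => h1 i) ⟨i, Finset.mem_univ i, h3⟩
        rw [Finset.sum_const, Finset.card_univ, Fintype.card_fin, smul_eq_mul] at h4
        rw [Finsupp.degree_eq_sum] at hβ
        omega
      rw [← h2, hvβ]
    | succ k ih =>
      intro β hβ hvβ hex
      obtain ⟨j, hj⟩ : ∃ j, e - 1 < β j := by
        by_contra hcon
        push Not at hcon
        have : excess (e - 1) β = 0 := by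
          rw [excess, Finset.sum_eq_zero]
          intro i _
          have := hcon i
          omega
        omega
      obtain ⟨i, hi⟩ : ∃ i, β i < e - 1 := by
        by_contra hcon
        push Not at hcon
        have h4 : ∑ _i : Fin n, (e - 1) < ∑ i, β i :=
          Finset.sum_lt_sum (fun i _ => hcon i) ⟨j, Finset.mem_univ j, hj⟩
        rw [Finset.sum_const, Finset.card_univ, Fintype.card_fin, smul_eq_mul] at h4
        rw [Finsupp.degree_eq_sum] at hβ
        omega
      have hij : i ≠ j := by rintro rfl; omega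
      -- remove `e` from the `j`-th exponent
      set γ : Fin n →₀ ℕ := β - Finsupp.single j e with hγ
      have hγβ : γ + Finsupp.single j e = β := by
        rw [hγ]
        apply tsub_add_cancel_of_le
        rw [Finsupp.single_le_iff]
        omega
      have hγd : γ.degree = n * (e - 1) - e := by
        have h1 := congrArg Finsupp.degree hγβ
        rw [map_add, Finsupp.degree_single, hβ] at h1
        omega
      have h1 := hv γ hγd j
      rw [hγβ, hvβ] at h1
      have hle : ∀ κ : Mon n e, v (γ + κ.1) ≤ M := by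
        intro κ
        have h2 : (γ + κ.1).degree = n * (e - 1) := by
          rw [map_add, hγd, κ.2]; omega
        exact hmax ⟨γ + κ.1, h2⟩
      have h2 : ∑ κ : Mon n e, (mult κ : ℝ) * (M - v (γ + κ.1)) = 0 := by
        simp only [mul_sub, Finset.sum_sub_distrib]
        rw [← h1, ← Finset.sum_mul, sum_mult, sub_self]
      have h3 := (Finset.sum_eq_zero_iff_of_nonneg (fun κ _ => mul_nonneg (Nat.cast_nonneg _)
        (sub_nonneg.mpr (hle κ)))).mp h2
      -- the neighbour with smaller excess
      have hκd : (Finsupp.single j (e - 1) + Finsupp.single i 1 : Fin n →₀ ℕ).degree = e := by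
        rw [map_add, Finsupp.degree_single, Finsupp.degree_single]; omega
      have h4 := h3 ⟨Finsupp.single j (e - 1) + Finsupp.single i 1, hκd⟩ (Finset.mem_univ _)
      have h5 : (0 : ℝ) < mult (⟨Finsupp.single j (e - 1) + Finsupp.single i 1, hκd⟩ : Mon n e) :=
        Nat.cast_pos.mpr (mult_pos _)
      have h6 : v (γ + (Finsupp.single j (e - 1) + Finsupp.single i 1)) = M := by
        rcases mul_eq_zero.mp h4 with h | h
        · exact absurd h h5.ne'
        · exact (sub_eq_zero.mp h).symm
      have h7 : (γ + (Finsupp.single j (e - 1) + Finsupp.single i 1)).degree = n * (e - 1) := by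
        rw [map_add, hγd, hκd]; omega
      refine ih _ h7 h6 ?_
      -- the excess drops by one
      have hval : ∀ l, (γ + (Finsupp.single j (e - 1) + Finsupp.single i 1) : Fin n →₀ ℕ) l =
          if l = j then β j - 1 else if l = i then β i + 1 else β l := by
        intro l
        have hγl : γ l = β l - (Finsupp.single j e : Fin n →₀ ℕ) l := by rw [hγ]; rfl
        rw [Finsupp.add_apply, Finsupp.add_apply, hγl]
        by_cases hlj : l = j
        · subst hlj
          rw [if_pos rfl, Finsupp.single_eq_same, Finsupp.single_eq_same,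
            Finsupp.single_eq_of_ne (by exact Ne.symm hij)]
          omega
        · rw [if_neg hlj, Finsupp.single_eq_of_ne hlj, Finsupp.single_eq_of_ne hlj]
          by_cases hli : l = i
          · subst hli
            rw [if_pos rfl, Finsupp.single_eq_same]; omega
          · rw [if_neg hli, Finsupp.single_eq_of_ne hli]; omega
      have hsum : excess (e - 1) (γ + (Finsupp.single j (e - 1) + Finsupp.single i 1)) + 1 =
          excess (e - 1) β := by
        rw [excess, excess, ← Finset.add_sum_erase _ _ (Finset.mem_univ j),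
          ← Finset.add_sum_erase (a := j) _ _ (Finset.mem_univ j), hval j, if_pos rfl]
        have h8 : ∑ x ∈ Finset.univ.erase j,
            ((γ + (Finsupp.single j (e - 1) + Finsupp.single i 1) : Fin n →₀ ℕ) x - (e - 1)) =
            ∑ x ∈ Finset.univ.erase j, (β x - (e - 1)) := by
          refine Finset.sum_congr rfl fun l hl => ?_
          rw [hval l, if_neg (Finset.ne_of_mem_erase hl)]
          split_ifs with h
          · subst h; omega
          · rfl
        rw [h8]; omega
      omega
  have hM2 := key _ β₀.1 β₀.2 rfl rfl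
  rw [hM2]
  exact hmax ⟨β, hβ⟩

/-- the special family -/
noncomputable def fam (n d : ℕ) (c : ℂ) : MvPolynomial (Fin n) ℂ :=
  ∑ i, X i ^ d - C c * (∑ i, X i) ^ d

lemma sumX_homog (n : ℕ) : (∑ i, X i : MvPolynomial (Fin n) ℂ).IsHomogeneous 1 :=
  IsHomogeneous.sum _ _ _ fun i _ => isHomogeneous_X _ i

lemma fam_homog (c : ℂ) : (fam n d c).IsHomogeneous d := by
  rw [fam]
  refine IsHomogeneous.sub (IsHomogeneous.sum _ _ _ fun i _ => isHomogeneous_X_pow i d) ?_
  have := (isHomogeneous_C (Fin n) c).mul ((sumX_homog n).pow d)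
  rwa [zero_add, one_mul] at this

lemma pderiv_sumX (j : Fin n) : pderiv j (∑ i, X i : MvPolynomial (Fin n) ℂ) = 1 := by
  classical
  rw [map_sum]
  simp only [pderiv_X]
  simp [Pi.single_apply]

lemma pderiv_fam (c : ℂ) (j : Fin n) : pderiv j (fam n d c) =
    C (d : ℂ) * (X j ^ (d - 1) - C c * (∑ i, X i) ^ (d - 1)) := by
  classical
  rw [fam, map_sub, map_sum, pderiv_C_mul]
  have h1 : ∑ i, pderiv j ((X i : MvPolynomial (Fin n) ℂ) ^ d) = C (d : ℂ) * X j ^ (d - 1) := by
    rw [Finset.sum_eq_single j]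
    · rw [pderiv_pow, pderiv_X_self, mul_one]; simp
    · intro b _ hb
      rw [pderiv_pow, pderiv_X_of_ne hb, mul_zero]
    · intro h; exact absurd (Finset.mem_univ _) h
  rw [h1, pderiv_pow, pderiv_sumX, mul_one]
  have : ((d : ℕ) : MvPolynomial (Fin n) ℂ) = C (d : ℂ) := by simp
  rw [this]
  ring

/-- the parameter of the form which is singular at `(1, …, 1)` -/
noncomputable def c0 (n d : ℕ) : ℂ := ((n : ℂ) ^ (d - 1))⁻¹

lemma mon_add (α β : Fin n →₀ ℕ) : mon ℂ (α + β) = mon ℂ α * mon ℂ β := by
  rw [mon, mon, mon, monomial_mul, one_mul]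

lemma mon_single (j : Fin n) (e : ℕ) : mon ℂ (Finsupp.single j e) = X j ^ e := by
  rw [mon, X_pow_eq_monomial]

lemma sumX_pow (n e : ℕ) : (∑ i, X i : MvPolynomial (Fin n) ℂ) ^ e =
    ∑ κ : Mon n e, C (mult κ : ℂ) * mon ℂ κ.1 := by
  rw [lin_pow]
  refine Finset.sum_congr rfl fun κ _ => ?_
  rw [mon_eq]; simp

/-- a linear functional which vanishes on the top degree part of the jacobian ideal takes the same
value at all monomials -/
theorem functional_const (hn : 2 ≤ n) (hd : 3 ≤ d) (ℓ : MvPolynomial (Fin n) ℂ →ₗ[ℂ] ℂ)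
    (hℓ : ∀ (γ : Mon n (n * (d - 2) - (d - 1))) (j : Fin n),
      ℓ (mon ℂ γ.1 * pderiv j (fam n d (c0 n d))) = 0)
    (β : Mon n (n * (d - 2))) : ℓ (mon ℂ β.1) = ℓ (mon ℂ (cst n (d - 2))) := by
  have hn0 : ((n : ℂ) ^ (d - 1)) ≠ 0 := pow_ne_zero _ (by rw [Nat.cast_ne_zero]; omega)
  have hd0 : (d : ℂ) ≠ 0 := by rw [Nat.cast_ne_zero]; omega
  have hN : d - 1 ≤ n * (d - 1 - 1) := by
    have h1 : 2 * (d - 2) ≤ n * (d - 2) := Nat.mul_le_mul_right _ hn
    have h2 : d - 1 - 1 = d - 2 := by omega
    rw [h2]; omega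
  have hrel : ∀ γ : Fin n →₀ ℕ, γ.degree = n * (d - 1 - 1) - (d - 1) → ∀ j,
      (n : ℂ) ^ (d - 1) * ℓ (mon ℂ (γ + Finsupp.single j (d - 1))) =
        ∑ κ : Mon n (d - 1), (mult κ : ℂ) * ℓ (mon ℂ (γ + κ.1)) := by
    intro γ hγ j
    have h1 := hℓ ⟨γ, hγ⟩ j
    rw [pderiv_fam] at h1
    have h2 : mon ℂ γ * (C (d : ℂ) * (X j ^ (d - 1) - C (c0 n d) * (∑ i, X i) ^ (d - 1))) =
        (d : ℂ) • (mon ℂ (γ + Finsupp.single j (d - 1)) -
          c0 n d • ∑ κ : Mon n (d - 1), (mult κ : ℂ) • mon ℂ (γ + κ.1)) := by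
      rw [sumX_pow, mon_add, mon_single]
      simp only [smul_eq_C_mul, mon_add]
      have h3 : ∑ κ : Mon n (d - 1), C (mult κ : ℂ) * (mon ℂ γ * mon ℂ κ.1) =
          mon ℂ γ * ∑ κ : Mon n (d - 1), C (mult κ : ℂ) * mon ℂ κ.1 := by
        rw [Finset.mul_sum]
        refine Finset.sum_congr rfl fun κ _ => ?_
        ring
      rw [h3]; ring
    rw [h2, map_smul, smul_eq_mul, map_sub, map_smul, map_sum, smul_eq_mul] at h1
    have h4 := (mul_eq_zero.mp h1).resolve_left hd0
    rw [sub_eq_zero] at h4
    rw [h4, c0, ← mul_assoc, mul_inv_cancel₀ hn0, one_mul]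
    refine Finset.sum_congr rfl fun κ _ => ?_
    rw [map_smul, smul_eq_mul]
  have hcast : ((n : ℝ) : ℂ) = (n : ℂ) := by simp
  have hre : ∀ s : ℂ → ℝ, (∀ x y, s (x + y) = s x + s y) → (∀ (r : ℝ) x, s (r * x) = r * s x) →
      s (ℓ (mon ℂ β.1)) ≤ s (ℓ (mon ℂ (cst n (d - 2)))) := by
    intro s hs1 hs2
    have hs0 : s 0 = 0 := by
      have := hs1 0 0
      rw [add_zero] at this
      linarith
    have hsum : ∀ (T : Finset (Mon n (d - 1))) (x : Mon n (d - 1) → ℂ),
        s (∑ κ ∈ T, x κ) = ∑ κ ∈ T, s (x κ) := by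
      classical
      intro T x
      induction T using Finset.induction_on with
      | empty => simpa using hs0
      | insert a T ha ih => rw [Finset.sum_insert ha, Finset.sum_insert ha, hs1, ih]
    have h := max_principle (n := n) (by omega) (e := d - 1) (by omega) hN
      (fun β => s (ℓ (mon ℂ β))) (by
        intro γ hγ j
        have h1 := congrArg s (hrel γ hγ j)
        rw [hsum] at h1
        have h2 : ((n : ℂ) ^ (d - 1)) = (((n : ℝ) ^ (d - 1) : ℝ) : ℂ) := by push_cast; rfl
        rw [h2, hs2] at h1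
        rw [h1]
        refine Finset.sum_congr rfl fun κ _ => ?_
        have h3 : (mult κ : ℂ) = ((mult κ : ℝ) : ℂ) := by push_cast; rfl
        rw [h3, hs2]) β.1 (by
        rw [β.2]; congr 1)
    exact h
  apply Complex.ext
  · refine le_antisymm (hre Complex.re Complex.add_re (fun r x => by simp)) ?_
    have := hre (fun x => -x.re) (fun x y => by simp; ring) (fun r x => by simp)
    linarith
  · refine le_antisymm (hre Complex.im Complex.add_im (fun r x => by simp)) ?_
    have := hre (fun x => -x.im) (fun x y => by simp; ring) (fun r x => by simp)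
    linarith

/-- the monomials of top degree are congruent modulo the jacobian ideal -/
theorem exists_rows (hn : 2 ≤ n) (hd : 3 ≤ d) (β : Mon n (n * (d - 2))) :
    ∃ g : Fin n → MvPolynomial (Fin n) ℂ, (∀ i, (g i).IsHomogeneous (n * (d - 2) - (d - 1))) ∧
      ∑ i, g i * pderiv i (fam n d (c0 n d)) = mon ℂ β.1 - mon ℂ (cst n (d - 2)) := by
  classical
  set W : Submodule ℂ (MvPolynomial (Fin n) ℂ) := Submodule.span ℂ
    (Set.range fun p : Mon n (n * (d - 2) - (d - 1)) × Fin n =>
      mon ℂ p.1.1 * pderiv p.2 (fam n d (c0 n d))) with hW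
  have h1 : mon ℂ β.1 - mon ℂ (cst n (d - 2)) ∈ W := by
    by_contra hcon
    obtain ⟨ℓ, hℓ1, hℓ2⟩ := Submodule.exists_le_ker_of_notMem hcon
    apply hℓ1
    rw [map_sub, sub_eq_zero]
    refine functional_const hn hd ℓ (fun γ j => ?_) β
    exact hℓ2 (Submodule.subset_span ⟨(γ, j), rfl⟩)
  obtain ⟨a, ha⟩ := (Submodule.mem_span_range_iff_exists_fun ℂ).mp h1
  refine ⟨fun i => ∑ γ : Mon n (n * (d - 2) - (d - 1)), C (a (γ, i)) * mon ℂ γ.1,
    fun i => IsHomogeneous.sum _ _ _ fun γ _ => ?_, ?_⟩
  · have := (isHomogeneous_C (Fin n) (a (γ, i))).mul (mon_homog (R := ℂ) γ)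
    rwa [zero_add] at this
  · rw [← ha, Fintype.sum_prod_type, Finset.sum_comm]
    refine Finset.sum_congr rfl fun i _ => ?_
    rw [Finset.sum_mul]
    refine Finset.sum_congr rfl fun γ _ => ?_
    rw [smul_eq_C_mul, mul_assoc]

end Pool.Agent.L5helper21.AF
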