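import Pool.Agent.L5helper21.AF.Lag

/-!
The discriminant is a denominator of the associated form.
-/

set_option autoImplicit false

open MvPolynomial

namespace Pool.Agent.L5helper21.AF

variable {n d : ℕ}

/-- every vector is the coefficient vector of a form -/
lemma exists_form (a : Mon n d → ℂ) : ∃ f : MvPolynomial (Fin n) ℂ, f.IsHomogeneous d ∧
    cf d f = a := by
  classical
  refine ⟨∑ α : Mon n d, C (a α) * mon ℂ α.1, IsHomogeneous.sum _ _ _ fun α _ => ?_, ?_⟩
  · have := (isHomogeneous_C (Fin n) (a α)).mul (mon_homog (R := ℂ) α)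
    rwa [zero_add] at this
  · ext1 α
    rw [cf, coeff_sum]
    simp only [coeff_C_mul, coeff_mon]
    rw [Finset.sum_eq_single α]
    · simp
    · intro b _ hb
      rw [if_neg, mul_zero]
      intro h
      exact hb (Subtype.ext h)
    · intro h; exact absurd (Finset.mem_univ _) h

lemma fam_degenerate (hn : 2 ≤ n) : ¬ IsNondeg (fam n d (c0 n d)) := by
  intro h
  have h1 := h (fun _ => 1) (by
    intro i
    rw [pderiv_fam]
    simp only [eval_mul, eval_C, eval_sub, eval_pow, eval_X, map_sum, one_pow, Finset.sum_const,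
      Finset.card_univ, Fintype.card_fin, nsmul_eq_mul, mul_one]
    rw [c0, inv_mul_cancel₀ (pow_ne_zero _ (by rw [Nat.cast_ne_zero]; omega)), sub_self, mul_zero])
  have := congrFun h1 ⟨0, by omega⟩
  exact one_ne_zero this

/-- The discriminant is a denominator. -/
theorem disc_mem_den (hn : 2 ≤ n) (hd : 3 ≤ d) {Δ : MvPolynomial (Mon n d) ℂ}
    (hΔ : IsDiscriminant n d Δ) : Δ ∈ den n d := by
  classical
  have hprime : Prime Δ := hΔ.1.prime
  -- a power of the discriminant is a denominator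
  have hrad : Δ ∈ (den n d).radical := by
    rw [← vanishingIdeal_zeroLocus_eq_radical (K := ℂ), mem_vanishingIdeal_iff]
    intro a ha
    obtain ⟨f, hf, rfl⟩ := exists_form a
    have h0 : aeval (cf d f) Δ = eval (cf d f) Δ :=
      RingHom.congr_fun (coe_aeval_eq_eval (cf d f)) Δ
    rw [h0, hΔ.2 f hf]
    intro hs
    obtain ⟨g, r, hg, h1⟩ := exists_den hn hd hf hs
    have h2 := (mem_zeroLocus_iff.1 ha) _ (cramer hn hd hg r)
    have h3 : aeval (cf d f) (umat n d g r).det = eval (cf d f) (umat n d g r).det :=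
      RingHom.congr_fun (coe_aeval_eq_eval (cf d f)) _
    rw [h3, h1] at h2
    exact one_ne_zero h2
  obtain ⟨k0, hk0⟩ := hrad
  -- the smallest power
  have hex : ∃ k, Δ ^ k ∈ den n d := ⟨k0, hk0⟩
  set k := Nat.find hex with hk
  have hkm : Δ ^ k ∈ den n d := Nat.find_spec hex
  rcases Nat.lt_or_ge k 2 with hk2 | hk2
  · have h1 : Δ ^ 1 ∈ den n d := by
      have : Δ ^ 1 = Δ ^ (1 - k) * Δ ^ k := by
        rw [← pow_add]; congr 1; omega
      rw [this]
      exact Ideal.mul_mem_left _ _ hkm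
    rwa [pow_one] at h1
  exfalso
  have hkmin : Δ ^ (k - 1) ∉ den n d := Nat.find_min hex (by omega)
  choose P hP using (mem_den.mp hkm)
  -- some numerator is not divisible by the discriminant
  obtain ⟨β, hβ⟩ : ∃ β, ¬ Δ ∣ P β := by
    by_contra hcon
    push Not at hcon
    apply hkmin
    rw [mem_den]
    intro β
    obtain ⟨P', hP'⟩ := hcon β
    refine ⟨P', fun f hf hs c hc => ?_⟩
    have h1 := hP β f hf hs c hc
    have hne : eval (cf d f) Δ ≠ 0 := fun h0 => (hΔ.2 f hf).mp h0 hs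
    rw [hP', eval_mul, eval_pow] at h1
    rw [eval_pow]
    have h2 : eval (cf d f) Δ ^ k = eval (cf d f) Δ * eval (cf d f) Δ ^ (k - 1) := by
      rw [← pow_succ']; congr 1; omega
    rw [h2, mul_assoc] at h1
    exact mul_left_cancel₀ hne h1
  -- compare with a denominator with a simple zero
  obtain ⟨D, hD, hDs⟩ := simple_den hn hd
  obtain ⟨Q, hQ⟩ := mem_den.mp hD β
  have h1 : Δ * (D * P β - Δ ^ k * Q) = 0 := by
    apply MvPolynomial.funext
    intro a
    obtain ⟨f, hf, rfl⟩ := exists_form a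
    rw [map_zero, eval_mul]
    by_cases hs : IsNondeg f
    · obtain ⟨c, hc⟩ := exists_val (by omega) hf hs (h := mon ℂ β.1) (mon_homog β)
      have e1 := hQ f hf hs c hc
      have e2 := hP β f hf hs c hc
      rw [eval_sub, eval_mul, eval_mul, ← e1, ← e2]
      ring
    · rw [(hΔ.2 f hf).mpr hs, zero_mul]
  have h2 : D * P β = Δ ^ k * Q := by
    have := (mul_eq_zero.mp h1).resolve_left hprime.ne_zero
    exact sub_eq_zero.mp this
  have h3 : Δ ^ k ∣ D := by
    have h4 : Δ ^ k ∣ D * P β := ⟨Q, h2⟩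
    exact hprime.pow_dvd_of_dvd_mul_right k hβ h4
  have h4 : Δ ^ 2 ∣ D := (pow_dvd_pow Δ hk2).trans h3
  apply hDs
  have h5 : (Polynomial.X - Polynomial.C (c0 n d)) ∣ theta n d Δ := by
    rw [Polynomial.dvd_iff_isRoot, Polynomial.IsRoot.def, eval_theta,
      (hΔ.2 _ (fam_homog _)).mpr (fam_degenerate hn)]
  obtain ⟨E, hE⟩ := h4
  rw [hE, map_mul, map_pow]
  exact Dvd.dvd.mul_right (pow_dvd_pow_of_dvd h5 2) _

/-- The product of the discriminant and the associated form is polynomial in the coefficients. -/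
theorem extends_one (hn : 2 ≤ n) (hd : 3 ≤ d) {Δ : MvPolynomial (Mon n d) ℂ}
    (hΔ : IsDiscriminant n d Δ) : Extends n d Δ 1 := by
  choose P hP using mem_den.mp (disc_mem_den hn hd hΔ)
  refine ⟨fun β => C (mult β : ℂ) * P β, fun f hf hs F hF β => ?_⟩
  obtain ⟨c, hc1, hc2⟩ := coeff_assoc (by omega) hf hs hF β
  rw [eval_mul, eval_C, ← hP β f hf hs c hc1, hc2, pow_one]
  ring

theorem isLeast_one (hn : 2 ≤ n) (hd : 3 ≤ d) {Δ : MvPolynomial (Mon n d) ℂ}
    (hΔ : IsDiscriminant n d Δ) : IsLeast {p : ℕ | 0 < p ∧ Extends n d Δ p} 1 :=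
  ⟨⟨one_pos, extends_one hn hd hΔ⟩, fun _ hp => hp.1⟩

end Pool.Agent.L5helper21.AF
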