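import Pool.Agent.L5helper21.AF.Sub

/-!
The polynomials which vanish at all degenerate forms are a prime ideal; it contains, for every
nondegenerate form, a polynomial which does not vanish at this form.
-/

set_option autoImplicit false

open MvPolynomial

namespace Pool.Agent.L5helper21.AF

variable {n d : ℕ}

/-- the ideal of the polynomials which vanish at all degenerate forms -/
def sing (n d : ℕ) : Ideal (MvPolynomial (Mon n d) ℂ) where
  carrier := {P | ∀ f : MvPolynomial (Fin n) ℂ, f.IsHomogeneous d → ¬ IsNondeg f →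
    eval (cf d f) P = 0}
  add_mem' := by
    intro P Q hP hQ f hf hs
    rw [map_add, hP f hf hs, hQ f hf hs, add_zero]
  zero_mem' := by
    intro f hf hs
    rw [map_zero]
  smul_mem' := by
    intro P Q hQ f hf hs
    rw [smul_eq_mul, map_mul, hQ f hf hs, mul_zero]

lemma mem_sing {P : MvPolynomial (Mon n d) ℂ} : P ∈ sing n d ↔
    ∀ f : MvPolynomial (Fin n) ℂ, f.IsHomogeneous d → ¬ IsNondeg f → eval (cf d f) P = 0 := Iff.rfl

/-- the ring of the parameters -/
abbrev Par (n d : ℕ) : Type := MvPolynomial ((Fin n × Fin n) ⊕ Mon n d) ℂ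

open Classical in
/-- the generic form which is singular at a coordinate vector -/
noncomputable def genS (n d : ℕ) (i0 : Fin n) : MvPolynomial (Fin n) (Par n d) :=
  ∑ β : Mon n d, C (if d - 1 ≤ β.1 i0 then 0 else X (Sum.inr β)) * mon _ β.1

/-- the generic matrix -/
noncomputable def genM (n d : ℕ) : Matrix (Fin n) (Fin n) (Par n d) :=
  Matrix.of fun i j => X (Sum.inl (i, j))

/-- the parametrization of the degenerate forms -/
noncomputable def psi (n d : ℕ) (i0 : Fin n) : MvPolynomial (Mon n d) ℂ →+* Par n d :=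
  eval₂Hom C fun α => coeff α.1 (subm (genM n d) (genS n d i0))

open Classical in
/-- a form which is singular at a coordinate vector -/
noncomputable def spS (n d : ℕ) (i0 : Fin n) (a : Mon n d → ℂ) : MvPolynomial (Fin n) ℂ :=
  ∑ β : Mon n d, C (if d - 1 ≤ β.1 i0 then 0 else a β) * mon _ β.1

lemma map_genS (i0 : Fin n) (y : (Fin n × Fin n) ⊕ Mon n d → ℂ) :
    map (eval y) (genS n d i0) = spS n d i0 fun β => y (Sum.inr β) := by
  classical
  rw [genS, spS, map_sum]
  refine Finset.sum_congr rfl fun β _ => ?_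
  rw [map_mul, map_C, map_mon]
  congr 2
  split_ifs
  · rw [map_zero]
  · rw [eval_X]

lemma map_genM (y : (Fin n × Fin n) ⊕ Mon n d → ℂ) :
    (genM n d).map (eval y) = Matrix.of fun i j => y (Sum.inl (i, j)) := by
  ext i j
  rw [Matrix.map_apply, genM, Matrix.of_apply, Matrix.of_apply, eval_X]

lemma eval_psi (i0 : Fin n) (y : (Fin n × Fin n) ⊕ Mon n d → ℂ) (P : MvPolynomial (Mon n d) ℂ) :
    eval y (psi n d i0 P) = eval (cf d (subm (Matrix.of fun i j => y (Sum.inl (i, j)))
      (spS n d i0 fun β => y (Sum.inr β)))) P := by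
  have h : (eval y).comp (psi n d i0) = eval (cf d (subm (Matrix.of fun i j => y (Sum.inl (i, j)))
      (spS n d i0 fun β => y (Sum.inr β)))) := by
    apply MvPolynomial.ringHom_ext
    · intro r
      simp [psi]
    · intro α
      rw [RingHom.comp_apply, psi, coe_eval₂Hom, eval₂_X, eval_X, ← coeff_map, map_subm, map_genS,
        map_genM]
      rfl
  exact RingHom.congr_fun h P

lemma spS_homog (i0 : Fin n) (a : Mon n d → ℂ) : (spS n d i0 a).IsHomogeneous d := by
  classical
  refine IsHomogeneous.sum _ _ _ fun β _ => ?_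
  have := (isHomogeneous_C (Fin n) (if d - 1 ≤ β.1 i0 then (0 : ℂ) else a β)).mul
    (mon_homog (R := ℂ) β)
  rwa [zero_add] at this

lemma coeff_spS (i0 : Fin n) (a : Mon n d → ℂ) {β : Fin n →₀ ℕ}
    (hβ2 : d - 1 ≤ β i0) : coeff β (spS n d i0 a) = 0 := by
  classical
  rw [spS, coeff_sum, Finset.sum_eq_zero]
  intro γ _
  rw [coeff_C_mul, coeff_mon]
  split_ifs with h1 h2 h2
  · ring
  · ring
  · rw [h2] at h1; exact absurd hβ2 h1
  · ring

lemma spS_self (i0 : Fin n) {p : MvPolynomial (Fin n) ℂ} (hp : p.IsHomogeneous d)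
    (h : ∀ β : Fin n →₀ ℕ, β.degree = d → d - 1 ≤ β i0 → coeff β p = 0) :
    spS n d i0 (cf d p) = p := by
  classical
  conv_rhs => rw [homog_eq_sum hp]
  rw [spS]
  refine Finset.sum_congr rfl fun β _ => ?_
  split_ifs with h1
  · rw [h β.1 β.2 h1]
  · rfl

lemma sing_eq (hd : 2 ≤ d) (i0 : Fin n) : sing n d = RingHom.ker (psi n d i0) := by
  ext P
  rw [mem_sing, RingHom.mem_ker]
  constructor
  · intro h
    apply MvPolynomial.funext
    intro y
    rw [eval_psi, map_zero]
    apply h
    · exact subm_homog _ (spS_homog i0 _)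
    · exact degenerate_of hd i0 (spS_homog i0 _)
        ((sing_iff hd i0 (spS_homog i0 _)).mpr fun β _ hβ2 => coeff_spS i0 _ hβ2) _
  · intro h f hf hs
    obtain ⟨G, p, hp, hp0, rfl⟩ := exists_of_degenerate i0 hf hs
    have h1 := eval_psi i0 (Sum.elim (fun ij : Fin n × Fin n => G ij.1 ij.2) (cf d p)) P
    rw [h, map_zero] at h1
    simp only [Sum.elim_inl, Sum.elim_inr] at h1
    rw [show (fun β => cf d p β) = cf d p from rfl,
      spS_self i0 hp ((sing_iff hd i0 hp).mp hp0)] at h1
    exact h1.symm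

theorem sing_prime (hn : 1 ≤ n) (hd : 2 ≤ d) : (sing n d).IsPrime := by
  rw [sing_eq hd ⟨0, by omega⟩]
  exact RingHom.ker_isPrime _

open Classical in
/-- The denominators given by Cramer's rule vanish at the degenerate forms. -/
theorem det_mem_sing (hn : 2 ≤ n) (hd : 3 ≤ d)
    {g : Mon n (n * (d - 2)) → Fin n → MvPolynomial (Fin n) ℂ}
    (hg : ∀ m i, (g m i).IsHomogeneous (n * (d - 2) - (d - 1)))
    (r : Mon n (n * (d - 2)) → ℂ) : (umat n d g r).det ∈ sing n d := by
  intro f hf hs
  rw [IsNondeg] at hs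
  push Not at hs
  obtain ⟨x, hx, hx0⟩ := hs
  have hdet : eval (cf d f) (umat n d g r).det =
      ((umat n d g r).map (eval (cf d f))).det := by
    rw [RingHom.map_det]; rfl
  rw [hdet]
  apply Matrix.exists_mulVec_eq_zero_iff.mp
  refine ⟨fun m => eval x (mon ℂ m.1), ?_, ?_⟩
  · obtain ⟨i, hi⟩ : ∃ i, x i ≠ 0 := by
      by_contra hcon
      push Not at hcon
      exact hx0 (funext hcon)
    intro h
    have h1 := congrFun h ⟨Finsupp.single i (n * (d - 2)), Finsupp.degree_single _ _⟩
    simp only [Pi.zero_apply] at h1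
    rw [eval_mon, Finset.prod_eq_zero_iff] at h1
    obtain ⟨j, _, hj⟩ := h1
    by_cases hji : j = i
    · subst hji
      rw [Finsupp.single_eq_same] at hj
      have h2 : 2 * 1 ≤ n * (d - 2) := Nat.mul_le_mul hn (by omega)
      exact hi ((pow_eq_zero_iff (by omega)).mp hj)
    · rw [Finsupp.single_eq_of_ne (by exact hji), pow_zero] at hj
      exact one_ne_zero hj
  · -- the Hessian vanishes
    have hH : eval x (hess f) = 0 := by
      rw [hess, RingHom.map_det]
      apply Matrix.exists_mulVec_eq_zero_iff.mp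
      refine ⟨x, hx0, ?_⟩
      have h1 := hmat_mulVec hf
      ext i
      have h2 := congrArg (eval x) (congrFun h1 i)
      rw [Matrix.mulVec, dotProduct, map_sum, map_mul, hx i, mul_zero] at h2
      rw [Matrix.mulVec, dotProduct, Pi.zero_apply, ← h2]
      refine Finset.sum_congr rfl fun j _ => ?_
      rw [map_mul, eval_X]
      rfl
    ext m
    rw [umat_map hf, Matrix.mulVec, dotProduct, Pi.zero_apply]
    have h1 : eval x (rowf f (g m) (r m)) = 0 := by
      rw [rowf, map_add, map_sum, map_mul, hH, mul_zero, add_zero, Finset.sum_eq_zero]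
      intro i _
      rw [map_mul, hx i, mul_zero]
    rw [← h1]
    conv_rhs => rw [homog_eq_sum (rowf_homog hn hd hf (hg m) (r m))]
    rw [map_sum]
    refine Finset.sum_congr rfl fun m' _ => ?_
    rw [map_mul, eval_C, Matrix.of_apply]

/-- For every nondegenerate form there is a polynomial vanishing at the degenerate forms but not at
the given form. -/
theorem exists_sing (hn : 2 ≤ n) (hd : 3 ≤ d) {f : MvPolynomial (Fin n) ℂ}
    (hf : f.IsHomogeneous d) (hs : IsNondeg f) : ∃ D ∈ sing n d, eval (cf d f) D = 1 := by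
  classical
  obtain ⟨g, r, hg, h1⟩ := exists_den hn hd hf hs
  refine ⟨_, det_mem_sing hn hd hg r, ?_⟩
  rw [← h1]

/-- the Fermat form is nondegenerate -/
lemma fermat_nondeg (hd : 2 ≤ d) : IsNondeg (∑ i, X i ^ d : MvPolynomial (Fin n) ℂ) := by
  classical
  intro x hx
  ext i
  have h1 := hx i
  rw [map_sum, Finset.sum_eq_single i] at h1
  · rw [pderiv_pow, pderiv_X_self, map_mul, map_mul, map_pow, eval_X, map_one, mul_one] at h1
    simp only [map_natCast] at h1
    have h2 : (d : ℂ) ≠ 0 := by rw [Nat.cast_ne_zero]; omega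
    have h3 := (mul_eq_zero.mp h1).resolve_left h2
    exact (pow_eq_zero_iff (by omega)).mp h3
  · intro j _ hj
    rw [pderiv_pow, pderiv_X_of_ne hj, mul_zero]
  · intro h; exact absurd (Finset.mem_univ _) h

lemma fermat_homog : (∑ i, X i ^ d : MvPolynomial (Fin n) ℂ).IsHomogeneous d :=
  IsHomogeneous.sum _ _ _ fun i _ => isHomogeneous_X_pow i d

end Pool.Agent.L5helper21.AF
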