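import Pool.Agent.L5helper21.AF.Pole

/-!
Linear substitutions and degenerate forms.
-/

set_option autoImplicit false

open MvPolynomial

namespace Pool.Agent.L5helper21.AF

variable {n d : ℕ}

section

variable {R : Type*} [CommRing R]

/-- the linear substitution given by a matrix -/
noncomputable def subm (G : Matrix (Fin n) (Fin n) R) :
    MvPolynomial (Fin n) R →ₐ[R] MvPolynomial (Fin n) R :=
  aeval fun i => ∑ j, C (G i j) * X j

lemma subm_X (G : Matrix (Fin n) (Fin n) R) (i : Fin n) :
    subm G (X i) = ∑ j, C (G i j) * X j := by rw [subm, aeval_X]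

lemma subm_C (G : Matrix (Fin n) (Fin n) R) (a : R) : subm G (C a) = C a := by
  rw [← algebraMap_eq, AlgHom.commutes]

lemma eval_subm (G : Matrix (Fin n) (Fin n) R) (x : Fin n → R) (p : MvPolynomial (Fin n) R) :
    eval x (subm G p) = eval (G.mulVec x) p := by
  induction p using MvPolynomial.induction_on with
  | C a => rw [subm_C, eval_C, eval_C]
  | add p q hp hq => rw [map_add, map_add, map_add, hp, hq]
  | mul_X p i hp =>
    rw [map_mul, map_mul, map_mul, hp, subm_X, eval_X, map_sum]
    congr 1
    rw [Matrix.mulVec, dotProduct]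
    refine Finset.sum_congr rfl fun j _ => ?_
    rw [map_mul, eval_C, eval_X]

lemma map_subm {S : Type*} [CommRing S] (φ : R →+* S) (G : Matrix (Fin n) (Fin n) R)
    (p : MvPolynomial (Fin n) R) : map φ (subm G p) = subm (G.map φ) (map φ p) := by
  induction p using MvPolynomial.induction_on with
  | C a => rw [subm_C, map_C, subm_C]
  | add p q hp hq => rw [map_add, map_add, map_add, map_add, hp, hq]
  | mul_X p i hp =>
    rw [map_mul, map_mul, map_mul, map_mul, hp, subm_X, map_X, subm_X, map_sum]
    congr 1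
    refine Finset.sum_congr rfl fun j _ => ?_
    rw [map_mul, map_C, map_X, Matrix.map_apply]

lemma pderiv_subm (G : Matrix (Fin n) (Fin n) R) (j : Fin n) (p : MvPolynomial (Fin n) R) :
    pderiv j (subm G p) = ∑ i, C (G i j) * subm G (pderiv i p) := by
  classical
  induction p using MvPolynomial.induction_on with
  | C a => simp [subm_C]
  | add p q hp hq => simp only [map_add, hp, hq, mul_add, Finset.sum_add_distrib]
  | mul_X p k hp =>
    have h1 : pderiv j (subm G (X k)) = C (G k j) := by
      rw [subm_X, map_sum, Finset.sum_eq_single j]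
      · rw [Derivation.leibniz, pderiv_X_self, pderiv_C]
        simp
      · intro b _ hb
        rw [Derivation.leibniz, pderiv_X_of_ne hb, pderiv_C]
        simp
      · intro h; exact absurd (Finset.mem_univ _) h
    rw [map_mul, Derivation.leibniz, smul_eq_mul, smul_eq_mul, h1, hp]
    have h2 : ∀ i, C (G i j) * subm G (pderiv i (p * X k)) =
        subm G (X k) * (C (G i j) * subm G (pderiv i p)) +
          (if i = k then subm G p * C (G k j) else 0) := by
      intro i
      rw [Derivation.leibniz, smul_eq_mul, smul_eq_mul, map_add, map_mul, map_mul]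
      by_cases hik : i = k
      · subst hik
        rw [pderiv_X_self, map_one, if_pos rfl]
        ring
      · rw [pderiv_X_of_ne (Ne.symm hik), map_zero, if_neg hik]
        ring
    rw [Finset.sum_congr rfl fun i _ => h2 i, Finset.sum_add_distrib, ← Finset.mul_sum,
      Finset.sum_ite_eq' Finset.univ k]
    simp only [Finset.mem_univ, if_true]
    ring

lemma subm_homog {m : ℕ} (G : Matrix (Fin n) (Fin n) R) {p : MvPolynomial (Fin n) R}
    (hp : p.IsHomogeneous m) : (subm G p).IsHomogeneous m := by
  have h := hp.aeval (fun i => ∑ j, C (G i j) * X j : Fin n → MvPolynomial (Fin n) R) (n := 1)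
    (fun i => IsHomogeneous.sum _ _ _ fun j _ => by
      have := (isHomogeneous_C (Fin n) (G i j)).mul (isHomogeneous_X R j)
      rwa [zero_add] at this)
  rwa [one_mul] at h

end

lemma subm_subm (G H : Matrix (Fin n) (Fin n) ℂ) (p : MvPolynomial (Fin n) ℂ) :
    subm G (subm H p) = subm (H * G) p := by
  apply MvPolynomial.funext
  intro x
  rw [eval_subm, eval_subm, eval_subm, Matrix.mulVec_mulVec]

lemma subm_one (p : MvPolynomial (Fin n) ℂ) : subm (1 : Matrix (Fin n) (Fin n) ℂ) p = p := by
  apply MvPolynomial.funext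
  intro x
  rw [eval_subm, Matrix.one_mulVec]

lemma eval_pderiv_subm (G : Matrix (Fin n) (Fin n) ℂ) (x : Fin n → ℂ) (j : Fin n)
    (p : MvPolynomial (Fin n) ℂ) :
    eval x (pderiv j (subm G p)) = ∑ i, G i j * eval (G.mulVec x) (pderiv i p) := by
  rw [pderiv_subm, map_sum]
  refine Finset.sum_congr rfl fun i _ => ?_
  rw [map_mul, eval_C, eval_subm]

/-- a form of positive degree vanishes at the origin -/
lemma eval_zero_homog {m : ℕ} (hm : m ≠ 0) {p : MvPolynomial (Fin n) ℂ} (hp : p.IsHomogeneous m) :
    eval 0 p = 0 := by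
  rw [show (0 : Fin n → ℂ) = fun _ => 0 from rfl]
  have h := hp.coeff_eq_zero (d := 0) (by simpa using Ne.symm hm)
  have h2 : (eval (fun _ : Fin n => (0 : ℂ))) = constantCoeff := by
    apply MvPolynomial.ringHom_ext
    · intro r; simp
    · intro i; simp
  rw [h2, constantCoeff_eq, h]

/-- the value of a form at a coordinate vector -/
lemma eval_single_homog {m : ℕ} (i0 : Fin n) {p : MvPolynomial (Fin n) ℂ}
    (hp : p.IsHomogeneous m) :
    eval (Pi.single i0 1) p = coeff (Finsupp.single i0 m) p := by
  classical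
  have h1 : (Finsupp.single i0 m : Fin n →₀ ℕ).degree = m := Finsupp.degree_single _ _
  conv_lhs => rw [homog_eq_sum hp]
  rw [map_sum, Finset.sum_eq_single (⟨Finsupp.single i0 m, h1⟩ : Mon n m)]
  · rw [map_mul, eval_C, eval_mon, Finset.prod_eq_one, mul_one]
    intro i _
    by_cases hi : i = i0
    · rw [hi, Pi.single_eq_same, one_pow]
    · simp only [Finsupp.single_apply, if_neg (Ne.symm hi), pow_zero]
  · intro b _ hb
    rw [map_mul, eval_mon]
    obtain ⟨i, hi, hbi⟩ : ∃ i, i ≠ i0 ∧ b.1 i ≠ 0 := by
      by_contra hcon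
      push Not at hcon
      apply hb
      apply Subtype.ext
      have h2 := b.2
      rw [Finsupp.degree_eq_sum, Finset.sum_eq_single i0 (fun i _ hi => hcon i hi)
        (fun h => absurd (Finset.mem_univ _) h)] at h2
      ext i
      by_cases hi : i = i0
      · rw [hi, h2]; simp
      · rw [hcon i hi]; simp [Ne.symm hi]
    rw [Finset.prod_eq_zero (Finset.mem_univ i), mul_zero]
    rw [Pi.single_eq_of_ne hi, zero_pow hbi]
  · intro h; exact absurd (Finset.mem_univ _) h

/-- the vanishing of the derivatives at a coordinate vector -/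
lemma sing_iff (hd : 2 ≤ d) (i0 : Fin n) {p : MvPolynomial (Fin n) ℂ} (hp : p.IsHomogeneous d) :
    (∀ i, eval (Pi.single i0 1) (pderiv i p) = 0) ↔
      ∀ β : Fin n →₀ ℕ, β.degree = d → d - 1 ≤ β i0 → coeff β p = 0 := by
  classical
  have h1 : ∀ i, eval (Pi.single i0 1) (pderiv i p) =
      coeff (Finsupp.single i0 (d - 1) + Finsupp.single i 1) p *
        ((Finsupp.single i0 (d - 1) : Fin n →₀ ℕ) i + 1) := by
    intro i
    rw [eval_single_homog i0 hp.pderiv, coeff_pderiv]
  constructor
  · intro h β hβ hβ2
    obtain ⟨i, hi⟩ : ∃ i, β = Finsupp.single i0 (d - 1) + Finsupp.single i 1 := by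
      have h2 : Finsupp.single i0 (d - 1) ≤ β := by
        rw [Finsupp.single_le_iff]; exact hβ2
      have h3 : (β - Finsupp.single i0 (d - 1)).degree = 1 := by
        have h4 := congrArg Finsupp.degree (tsub_add_cancel_of_le h2)
        rw [map_add, Finsupp.degree_single, hβ] at h4
        omega
      obtain ⟨i, hi⟩ := (Finsupp.sum_eq_one_iff _).mp h3
      exact ⟨i, by rw [← hi, add_tsub_cancel_of_le h2]⟩
    have h2 := h i
    rw [h1] at h2
    rw [hi]
    refine (mul_eq_zero.mp h2).resolve_right ?_
    norm_cast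
  · intro h i
    rw [h1, h _ _ _, zero_mul]
    · rw [map_add, Finsupp.degree_single, Finsupp.degree_single]; omega
    · rw [Finsupp.add_apply, Finsupp.single_eq_same]; omega

/-- an invertible matrix with a given nonzero column -/
lemma exists_matrix (i0 : Fin n) {x : Fin n → ℂ} (hx : x ≠ 0) :
    ∃ H : Matrix (Fin n) (Fin n) ℂ, IsUnit H.det ∧ H.mulVec (Pi.single i0 1) = x := by
  classical
  obtain ⟨j, hj⟩ : ∃ j, x j ≠ 0 := by
    by_contra hcon
    push Not at hcon
    exact hx (funext hcon)
  set H0 : Matrix (Fin n) (Fin n) ℂ := (1 : Matrix (Fin n) (Fin n) ℂ).updateCol j x with hH0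
  have hdet : H0.det = x j := by
    have := Matrix.cramer_one (α := ℂ) (n := Fin n)
    have h2 := Matrix.cramer_apply (1 : Matrix (Fin n) (Fin n) ℂ) x j
    rw [this] at h2
    rw [hH0, ← h2]
    rfl
  refine ⟨H0 * (Matrix.of fun a b => if Equiv.swap i0 j b = a then (1 : ℂ) else 0), ?_, ?_⟩
  · rw [Matrix.det_mul, hdet]
    have h3 : (Matrix.of fun a b => if Equiv.swap i0 j b = a then (1 : ℂ) else 0) *
        (Matrix.of fun a b => if Equiv.swap i0 j b = a then (1 : ℂ) else 0) = 1 := by
      ext a b
      rw [Matrix.mul_apply, Matrix.one_apply, Finset.sum_eq_single (Equiv.swap i0 j b)]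
      · simp only [Matrix.of_apply, Equiv.swap_apply_self, if_true, mul_one]
        simp only [eq_comm]
      · intro c _ hc
        simp only [Matrix.of_apply]
        rw [if_neg (Ne.symm hc), mul_zero]
      · intro h; exact absurd (Finset.mem_univ _) h
    refine (IsUnit.mk0 _ hj).mul ?_
    exact IsUnit.of_mul_eq_one _ (by rw [← Matrix.det_mul, h3, Matrix.det_one])
  · rw [← Matrix.mulVec_mulVec]
    have h4 : (Matrix.of fun a b => if Equiv.swap i0 j b = a then (1 : ℂ) else 0).mulVec
        (Pi.single i0 1) = Pi.single j 1 := by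
      ext a
      rw [Matrix.mulVec_single_one]
      simp only [Matrix.col_apply, Matrix.of_apply, Equiv.swap_apply_left, Pi.single_apply]
      simp only [eq_comm]
    rw [h4, Matrix.mulVec_single_one, hH0]
    ext a
    simp

/-- forms which are singular at a coordinate vector, and their linear transforms, are degenerate -/
lemma degenerate_of (hd : 2 ≤ d) (i0 : Fin n) {p : MvPolynomial (Fin n) ℂ}
    (hp : p.IsHomogeneous d) (h : ∀ i, eval (Pi.single i0 1) (pderiv i p) = 0)
    (G : Matrix (Fin n) (Fin n) ℂ) : ¬ IsNondeg (subm G p) := by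
  intro hs
  by_cases hG : G.det = 0
  · obtain ⟨x, hx, hGx⟩ := Matrix.exists_mulVec_eq_zero_iff.mpr hG
    apply hx
    apply hs
    intro j
    rw [eval_pderiv_subm, hGx, Finset.sum_eq_zero]
    intro i _
    rw [eval_zero_homog (m := d - 1) (by omega) hp.pderiv, mul_zero]
  · have hu : IsUnit G.det := IsUnit.mk0 _ hG
    set x := G⁻¹.mulVec (Pi.single i0 1) with hx
    have hGx : G.mulVec x = Pi.single i0 1 := by
      rw [hx, Matrix.mulVec_mulVec, Matrix.mul_nonsing_inv _ hu, Matrix.one_mulVec]
    have h1 : x = 0 := by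
      apply hs
      intro j
      rw [eval_pderiv_subm, hGx, Finset.sum_eq_zero]
      intro i _
      rw [h, mul_zero]
    rw [h1, Matrix.mulVec_zero] at hGx
    have := congrFun hGx i0
    rw [Pi.single_eq_same] at this
    exact zero_ne_one this

/-- every degenerate form is the transform of a form which is singular at a coordinate vector -/
lemma exists_of_degenerate (i0 : Fin n) {f : MvPolynomial (Fin n) ℂ}
    (hf : f.IsHomogeneous d) (hs : ¬ IsNondeg f) :
    ∃ (G : Matrix (Fin n) (Fin n) ℂ) (p : MvPolynomial (Fin n) ℂ), p.IsHomogeneous d ∧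
      (∀ i, eval (Pi.single i0 1) (pderiv i p) = 0) ∧ f = subm G p := by
  rw [IsNondeg] at hs
  push Not at hs
  obtain ⟨x, hx, hx0⟩ := hs
  obtain ⟨H, hH, hHx⟩ := exists_matrix i0 hx0
  refine ⟨H⁻¹, subm H f, subm_homog _ hf, ?_, ?_⟩
  · intro j
    rw [eval_pderiv_subm, hHx, Finset.sum_eq_zero]
    intro i _
    rw [hx, mul_zero]
  · rw [subm_subm, Matrix.mul_nonsing_inv _ hH, subm_one]

end Pool.Agent.L5helper21.AF
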