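import Pool.Agent.L5helper21.AF.Base
import Pool.Agent.L5helper21.AF.Defs

/-!
The determinant of a matrix `b` with `G = b X` is not in the ideal generated by `G` if this ideal
contains powers of the variables.
-/

set_option autoImplicit false

open MvPolynomial

namespace Pool.Agent.L5helper21.AF

variable {n : ℕ} {K : Type} [Field K]

/-- membership in an ideal generated by powers of some of the variables -/
lemma mem_powers (s : Set (Fin n)) (m : ℕ) (h : MvPolynomial (Fin n) K) :
    h ∈ Ideal.span ((fun i => (X i : MvPolynomial (Fin n) K) ^ m) '' s) ↔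
      ∀ α ∈ h.support, ∃ i ∈ s, m ≤ α i := by
  have h1 : (fun i => (X i : MvPolynomial (Fin n) K) ^ m) '' s =
      (fun α => monomial α (1 : K)) '' ((fun i => Finsupp.single i m) '' s) := by
    rw [Set.image_image]
    refine Set.image_congr fun i _ => ?_
    rw [X_pow_eq_monomial]
  rw [h1, mem_ideal_span_monomial_image]
  refine forall₂_congr fun α _ => ?_
  simp only [Set.exists_mem_image]
  refine exists_congr fun i => and_congr_right fun _ => ?_
  rw [Finsupp.single_le_iff]

lemma cancel_X {s : Set (Fin n)} {k : Fin n} (hk : k ∉ s) {m : ℕ} {h : MvPolynomial (Fin n) K}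
    (hm : X k * h ∈ Ideal.span ((fun i => (X i : MvPolynomial (Fin n) K) ^ m) '' s)) :
    h ∈ Ideal.span ((fun i => (X i : MvPolynomial (Fin n) K) ^ m) '' s) := by
  rw [mem_powers] at hm ⊢
  intro α hα
  obtain ⟨i, hi, hmi⟩ := hm (Finsupp.single k 1 + α) (by
    rw [mem_support_iff, coeff_X_mul]
    exact mem_support_iff.mp hα)
  refine ⟨i, hi, ?_⟩
  have hne : k ≠ i := fun h => hk (h ▸ hi)
  rwa [Finsupp.add_apply, Finsupp.single_apply, if_neg hne, zero_add] at hmi

/-- two matrices which map the vector of the variables to the vector of the `m`-th powers have the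
same determinant modulo these powers -/
lemma det_indep {m : ℕ} (c D : Matrix (Fin n) (Fin n) (MvPolynomial (Fin n) K))
    (hc : c.mulVec X = fun i => X i ^ m) (hD : D.mulVec X = fun i => X i ^ m) :
    c.det - D.det ∈ Ideal.span (Set.range fun i => (X i : MvPolynomial (Fin n) K) ^ m) := by
  classical
  have key : ∀ s : Finset (Fin n),
      (Matrix.of fun i j => if i ∈ s then c i j else D i j).det - D.det ∈
        Ideal.span (Set.range fun i => (X i : MvPolynomial (Fin n) K) ^ m) := by
    intro s
    induction s using Finset.induction_on with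
    | empty =>
      have : (Matrix.of fun i j => if i ∈ (∅ : Finset (Fin n)) then c i j else D i j) = D := by
        ext i j; simp
      rw [this, sub_self]
      exact Ideal.zero_mem _
    | insert k s hk ih =>
      set H : Matrix (Fin n) (Fin n) (MvPolynomial (Fin n) K) :=
        Matrix.of fun i j => if i ∈ s then c i j else D i j with hH
      have e1 : (Matrix.of fun i j => if i ∈ insert k s then c i j else D i j) =
          H.updateRow k (c k) := by
        ext i j
        by_cases hik : i = k
        · subst hik; simp
        · simp [hH, hik]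
      have e2 : H = H.updateRow k (D k) := by
        ext i j
        by_cases hik : i = k
        · subst hik; simp [hH, hk]
        · simp [Matrix.updateRow_ne hik]
      have e3 : (H.updateRow k (c k)).det = (H.updateRow k (c k - D k)).det + H.det := by
        conv_rhs => rw [e2]
        rw [Matrix.updateRow_idem]
        rw [← Matrix.det_updateRow_add, sub_add_cancel]
      set R := H.updateRow k (c k - D k) with hR
      have hRX : ∀ i, (R.mulVec X) i = if i = k then 0 else X i ^ m := by
        intro i
        by_cases hik : i = k
        · subst hik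
          have : (R.mulVec X) i = (c.mulVec X) i - (D.mulVec X) i := by
            simp only [Matrix.mulVec, hR, Matrix.updateRow_self, dotProduct, Pi.sub_apply,
              sub_mul, Finset.sum_sub_distrib]
          rw [this, hc, hD, if_pos rfl, sub_self]
        · rw [if_neg hik]
          by_cases his : i ∈ s
          · have : (R.mulVec X) i = (c.mulVec X) i := by
              simp [Matrix.mulVec, hR, Matrix.updateRow_ne hik, hH, his]
            rw [this, hc]
          · have : (R.mulVec X) i = (D.mulVec X) i := by
              simp [Matrix.mulVec, hR, Matrix.updateRow_ne hik, hH, his]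
            rw [this, hD]
      have h5 : X k * R.det ∈
          Ideal.span ((fun i => (X i : MvPolynomial (Fin n) K) ^ m) '' {i | i ≠ k}) := by
        have h6 : R.adjugate.mulVec (R.mulVec X) = R.det • X := by
          rw [Matrix.mulVec_mulVec, Matrix.adjugate_mul, Matrix.smul_mulVec, Matrix.one_mulVec]
        have h7 := congrFun h6 k
        have h8 : (R.det • (X : Fin n → MvPolynomial (Fin n) K)) k = X k * R.det := by
          simp [mul_comm]
        rw [← h8, ← h7, Matrix.mulVec, dotProduct]
        refine Ideal.sum_mem _ fun i _ => ?_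
        rw [hRX]
        by_cases hik : i = k
        · rw [if_pos hik, mul_zero]; exact Ideal.zero_mem _
        · rw [if_neg hik]
          exact Ideal.mul_mem_left _ _ (Ideal.subset_span ⟨i, hik, rfl⟩)
      have h6 : R.det ∈ Ideal.span (Set.range fun i => (X i : MvPolynomial (Fin n) K) ^ m) :=
        Ideal.span_mono (Set.image_subset_range _ _) (cancel_X (by simp) h5)
      rw [e1, e3, add_sub_assoc]
      exact Ideal.add_mem _ h6 ih
  have h := key Finset.univ
  have e : (Matrix.of fun i j => if i ∈ (Finset.univ : Finset (Fin n)) then c i j else D i j) =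
      c := by
    ext i j; simp
  rwa [e] at h

/-- If `G = b X` and the ideal generated by `G` contains powers of all variables, then the
determinant of `b` is not in this ideal. -/
theorem det_notMem (G : Fin n → MvPolynomial (Fin n) K)
    (b : Matrix (Fin n) (Fin n) (MvPolynomial (Fin n) K)) (hb : b.mulVec X = G) (m : ℕ)
    (hm : ∀ i, (X i : MvPolynomial (Fin n) K) ^ (m + 1) ∈ Ideal.span (Set.range G)) :
    b.det ∉ Ideal.span (Set.range G) := by
  classical
  intro hdet
  have hA : ∀ i, ∃ c : Fin n → MvPolynomial (Fin n) K, ∑ j, c j * G j = X i ^ (m + 1) :=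
    fun i => (Ideal.mem_span_range_iff_exists_fun).1 (hm i)
  choose A hA using hA
  have hAG : (Matrix.of A).mulVec G = fun i => X i ^ (m + 1) := by
    ext1 i
    rw [← hA i]; rfl
  have hc : (Matrix.of A * b).mulVec X = fun i => (X i : MvPolynomial (Fin n) K) ^ (m + 1) := by
    rw [← Matrix.mulVec_mulVec, hb, hAG]
  have hD : (Matrix.diagonal fun i => (X i : MvPolynomial (Fin n) K) ^ m).mulVec X =
      fun i => (X i : MvPolynomial (Fin n) K) ^ (m + 1) := by
    ext1 i
    rw [Matrix.mulVec_diagonal, pow_succ]
  have h1 := det_indep _ _ hc hD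
  -- the determinant of `A b` is in the ideal of the powers
  have h2 : ∀ j, (Matrix.of A).det * G j ∈
      Ideal.span (Set.range fun i => (X i : MvPolynomial (Fin n) K) ^ (m + 1)) := by
    intro j
    have h6 : (Matrix.of A).adjugate.mulVec ((Matrix.of A).mulVec G) = (Matrix.of A).det • G := by
      rw [Matrix.mulVec_mulVec, Matrix.adjugate_mul, Matrix.smul_mulVec, Matrix.one_mulVec]
    have h7 := congrFun h6 j
    have h8 : ((Matrix.of A).det • G) j = (Matrix.of A).det * G j := by simp
    rw [← h8, ← h7, hAG, Matrix.mulVec, dotProduct]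
    exact Ideal.sum_mem _ fun i _ => Ideal.mul_mem_left _ _ (Ideal.subset_span ⟨i, rfl⟩)
  obtain ⟨h, hh⟩ := (Ideal.mem_span_range_iff_exists_fun).1 hdet
  have h3 : (Matrix.of A * b).det ∈
      Ideal.span (Set.range fun i => (X i : MvPolynomial (Fin n) K) ^ (m + 1)) := by
    rw [Matrix.det_mul, ← hh, Finset.mul_sum]
    refine Ideal.sum_mem _ fun j _ => ?_
    rw [mul_left_comm]
    exact Ideal.mul_mem_left _ _ (h2 j)
  have h4 : (Matrix.diagonal fun i => (X i : MvPolynomial (Fin n) K) ^ m).det ∈
      Ideal.span (Set.range fun i => (X i : MvPolynomial (Fin n) K) ^ (m + 1)) := by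
    have := Ideal.sub_mem _ h3 h1
    rwa [sub_sub_cancel] at this
  rw [Matrix.det_diagonal, ← Set.image_univ, mem_powers] at h4
  have h5 : (∏ i, (X i : MvPolynomial (Fin n) K) ^ m) =
      monomial (Finsupp.equivFunOnFinite.symm fun _ => m) 1 := by
    rw [monomial_eq, C_1, one_mul, Finsupp.prod_fintype _ _ (fun i => pow_zero _)]
    rfl
  rw [h5] at h4
  obtain ⟨i, -, hi⟩ := h4 (Finsupp.equivFunOnFinite.symm fun _ => m) (by
    rw [mem_support_iff, coeff_monomial, if_pos rfl]
    exact one_ne_zero)
  simp at hi

end Pool.Agent.L5helper21.AF
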